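import Mathlib
import Pool.Agent.Lib.MP_be2ccc_co.Weigh

/-!
# Skew Hadamard matrices of order `2^T q`, `q` a prime power, `q % 8 ≠ 1`: definitions

All matrices have integer entries. `S1`-type fields say that entries are `0, ±1` with prescribed
disjoint supports: a sum of squares of entries is `1`.
-/

set_option autoImplicit false

namespace Pool.Agent.Lib.MP_be2ccc_co.SH

open Matrix

variable {ι : Type} [Fintype ι] [DecidableEq ι]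

/-- `a` left chain, `G` symmetric Hadamard, `e`, `d` the two parts of the right chain. -/
structure RS (n c μ : ℤ) (a G e d : Matrix ι ι ℤ) : Prop where
  at_ : aᵀ = -a
  Gt : Gᵀ = G
  et : eᵀ = -e
  dt : dᵀ = -d
  aa : a * a = -((n - 1) • (1 : Matrix ι ι ℤ))
  GG : G * G = n • (1 : Matrix ι ι ℤ)
  ee : e * e = -(c • (1 : Matrix ι ι ℤ))
  dd : d * d = -(μ • (1 : Matrix ι ι ℤ))
  aG : a * G = -(G * a)
  ea : e * a = a * e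
  da : d * a = a * d
  eG : e * G = -(G * e)
  dG : d * G = -(G * d)
  ed : e * d = -(d * e)
  s1 : ∀ x y, a x y ^ 2 + (1 : Matrix ι ι ℤ) x y = 1
  s2 : ∀ x y, G x y ^ 2 = 1
  s3 : ∀ x y, e x y ^ 2 + d x y ^ 2 + (1 : Matrix ι ι ℤ) x y = 1

/-- the chain with core levels and `Y` levels; `f` is the full right chain -/
structure HS (n l : ℤ) (a Y w b N f : Matrix ι ι ℤ) : Prop where
  at_ : aᵀ = -a
  Yt : Yᵀ = -Y
  wt : wᵀ = w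
  bt : bᵀ = -b
  Nt : Nᵀ = N
  ft : fᵀ = -f
  aa : a * a = -((n - l - 1) • (1 : Matrix ι ι ℤ))
  YY : Y * Y = -(l • (1 : Matrix ι ι ℤ))
  ww : w * w = (n - l) • (1 : Matrix ι ι ℤ)
  bb : b * b = -(l • (1 : Matrix ι ι ℤ))
  NN : N * N = n • (1 : Matrix ι ι ℤ)
  ff : f * f = -((n - 1) • (1 : Matrix ι ι ℤ))
  aw : a * w = -(w * a)
  aY : a * Y = -(Y * a)
  ab : a * b = -(b * a)
  aN : a * N = -(N * a)
  af : a * f = f * a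
  wY : w * Y = Y * w
  wb : w * b = b * w
  wN : w * N = N * w
  Yb : Y * b = b * Y
  YN : Y * N = -(N * Y)
  Yf : Y * f = f * Y
  bN : b * N = -(N * b)
  fN : f * N = -(N * f)
  s1 : ∀ x y, a x y ^ 2 + (1 : Matrix ι ι ℤ) x y = w x y ^ 2
  s2 : ∀ x y, w x y ^ 2 + Y x y ^ 2 = 1
  s3 : ∀ x y, b x y ^ 2 = Y x y ^ 2
  s4 : ∀ x y, N x y ^ 2 = 1
  s5 : ∀ x y, f x y ^ 2 + (1 : Matrix ι ι ℤ) x y = 1

/-- the frame used for `q ≡ 3 (mod 4)`: `1 + a` and `w` have the same support, `X`, `Y` fill the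
rest; `w` commutes with `Y` -/
structure FS (n k₁ k₂ : ℤ) (a w X Y : Matrix ι ι ℤ) : Prop where
  at_ : aᵀ = -a
  wt : wᵀ = w
  Xt : Xᵀ = -X
  Yt : Yᵀ = -Y
  aa : a * a = -((n - k₁ - k₂ - 1) • (1 : Matrix ι ι ℤ))
  ww : w * w = (n - k₁ - k₂) • (1 : Matrix ι ι ℤ)
  XX : X * X = -(k₁ • (1 : Matrix ι ι ℤ))
  YY : Y * Y = -(k₂ • (1 : Matrix ι ι ℤ))
  aw : a * w = -(w * a)
  aX : a * X = -(X * a)
  aY : a * Y = -(Y * a)
  XY : X * Y = -(Y * X)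
  wY : w * Y = Y * w
  s1 : ∀ x y, a x y ^ 2 + (1 : Matrix ι ι ℤ) x y = w x y ^ 2
  s2 : ∀ x y, w x y ^ 2 + X x y ^ 2 + Y x y ^ 2 = 1

/-- a skew core of order `m` with a reversing involution `R` -/
structure Core3 (m : ℤ) (β R : Matrix ι ι ℤ) : Prop where
  βt : βᵀ = -β
  Rt : Rᵀ = R
  RR : R * R = 1
  βR : β * R = -(R * β)
  ββ : β * β = Matrix.of (fun _ _ => (1 : ℤ)) - m • (1 : Matrix ι ι ℤ)
  βJ : β * Matrix.of (fun _ _ => (1 : ℤ)) = 0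
  Jβ : Matrix.of (fun _ _ => (1 : ℤ)) * β = 0
  JJ : (Matrix.of (fun _ _ => (1 : ℤ)) : Matrix ι ι ℤ) * Matrix.of (fun _ _ => (1 : ℤ)) =
    m • Matrix.of (fun _ _ => (1 : ℤ))
  JR : (Matrix.of (fun _ _ => (1 : ℤ)) : Matrix ι ι ℤ) * R = Matrix.of (fun _ _ => (1 : ℤ))
  RJ : R * (Matrix.of (fun _ _ => (1 : ℤ)) : Matrix ι ι ℤ) = Matrix.of (fun _ _ => (1 : ℤ))
  s1 : ∀ x y, β x y ^ 2 + (1 : Matrix ι ι ℤ) x y = 1
  s2 : ∀ x y, R x y = 0 ∨ R x y = 1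

/-- the double chain with `4` classes: `L i` left parts, `R i` right parts -/
structure DC (n : ℤ) (l r : Fin 4 → ℤ) (L R : Fin 4 → Matrix ι ι ℤ) (N : Matrix ι ι ℤ) :
    Prop where
  Lt : ∀ i, (L i)ᵀ = -L i
  Rt : ∀ i, (R i)ᵀ = -R i
  Nt : Nᵀ = N
  LL : ∀ i, L i * L i = -(l i • (1 : Matrix ι ι ℤ))
  RR : ∀ i, R i * R i = -(r i • (1 : Matrix ι ι ℤ))
  NN : N * N = n • (1 : Matrix ι ι ℤ)
  LLij : ∀ i j, i ≠ j → L i * L j = -(L j * L i)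
  RRij : ∀ i j, i ≠ j → R i * R j = -(R j * R i)
  LR : ∀ i j, L i * R j = R j * L i
  LN : ∀ i, L i * N = -(N * L i)
  RN : ∀ i, R i * N = -(N * R i)
  s1 : ∀ x y, (∑ i, L i x y ^ 2) + (1 : Matrix ι ι ℤ) x y = 1
  s2 : ∀ x y, (∑ i, R i x y ^ 2) + (1 : Matrix ι ι ℤ) x y = 1
  s3 : ∀ x y, N x y ^ 2 = 1

/-- four skew anticommuting matrices with disjoint supports filling the off-diagonal part -/
structure OD4 (k : Fin 4 → ℤ) (A : Fin 4 → Matrix ι ι ℤ) : Prop where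
  At : ∀ i, (A i)ᵀ = -A i
  AA : ∀ i, A i * A i = -(k i • (1 : Matrix ι ι ℤ))
  AAij : ∀ i j, i ≠ j → A i * A j = -(A j * A i)
  s1 : ∀ x y, (∑ i, A i x y ^ 2) + (1 : Matrix ι ι ℤ) x y = 1

/-- the blocks used for `q ≡ 5 (mod 8)`: `B 0 = J`, `B 1 = J - 2R`, `B 2 = (Q + 1)R`,
`B 3 = (Q - 1)R` -/
structure Core5 (q y : ℤ) (μ : Matrix ι ι ℤ) (B : Fin 4 → Matrix ι ι ℤ) (Q : Matrix ι ι ℤ) :
    Prop where
  μt : μᵀ = -μ
  Bt : ∀ i, (B i)ᵀ = B i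
  BB : ∀ i j, B i * B j = B j * B i
  Bμ : ∀ i, B i * μ = -(μ * B i)
  μμ : μ * μ = Matrix.of (fun _ _ => (1 : ℤ)) - q • (1 : Matrix ι ι ℤ) + (2 * y) • Q
  B0 : B 0 * B 0 = q • Matrix.of (fun _ _ => (1 : ℤ))
  B1 : B 1 * B 1 = (q - 4) • Matrix.of (fun _ _ => (1 : ℤ)) + (4 : ℤ) • (1 : Matrix ι ι ℤ)
  B2 : B 2 * B 2 = (q + 1) • (1 : Matrix ι ι ℤ) - Matrix.of (fun _ _ => (1 : ℤ)) + (2 : ℤ) • Q
  B3 : B 3 * B 3 = (q + 1) • (1 : Matrix ι ι ℤ) - Matrix.of (fun _ _ => (1 : ℤ)) - (2 : ℤ) • Q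
  s1 : ∀ x y, μ x y ^ 2 + (1 : Matrix ι ι ℤ) x y = 1
  s2 : ∀ i x y, B i x y ^ 2 = 1

end Pool.Agent.Lib.MP_be2ccc_co.SH
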