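import Mathlib
import Pool.Agent.Lib.MP_be2ccc_co.SH.Defs

/-!
# SH-Fin3: a frame and a skew core give a `W(n m, n m - 1)`

`S = a ⊗ 1 + w ⊗ β + X ⊗ J + Y ⊗ (J - 2R)`. `Sᵀ = -S` (`Jᵀ = J`), and
`S S = aa ⊗ 1 + ww ⊗ ββ + XX ⊗ JJ + YY ⊗ (J - 2R)² + cross terms`, with
`(J - 2R)² = (m - 4) J + 4`, all cross terms zero:
`aw + wa = 0`, `aX + Xa = 0`, `aY + Ya = 0`, `βJ = Jβ = 0`, `XY + YX = 0` with
`J (J - 2R) = (J - 2R) J = (m - 2) J`, and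
`w Y ⊗ β(J - 2R) + Y w ⊗ (J - 2R)β = -2 (w Y ⊗ βR + Y w ⊗ Rβ) = -2 (wY - Yw) ⊗ βR = 0`.
So `S S = -((n-k₁-k₂-1) + m (n-k₁-k₂) + 4 k₂) + ((n-k₁-k₂) - m k₁ - (m-4) k₂) J = -(nm - 1)`
by `heq`. Entries: exactly one of `w x y`, `X x y`, `Y x y` is nonzero (integers, `s2`).
-/

set_option autoImplicit false

namespace Pool.Agent.Lib.MP_be2ccc_co.SH

open Matrix Kronecker

private lemma negK {ι κ : Type} (A : Matrix ι ι ℤ) (B : Matrix κ κ ℤ) :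
    (-A) ⊗ₖ B = -(A ⊗ₖ B) := by
  ext ⟨i, k⟩ ⟨j, l⟩; simp [Matrix.kroneckerMap_apply]

private lemma Kneg {ι κ : Type} (A : Matrix ι ι ℤ) (B : Matrix κ κ ℤ) :
    A ⊗ₖ (-B) = -(A ⊗ₖ B) := by
  ext ⟨i, k⟩ ⟨j, l⟩; simp [Matrix.kroneckerMap_apply]

private lemma sqc (p : ℤ) (h : p ^ 2 ≤ 1) : p = 0 ∨ p = 1 ∨ p = -1 := by
  have h1 : p ≤ 1 := by nlinarith
  have h2 : -1 ≤ p := by nlinarith
  omega

theorem fin3 {ι κ : Type} [Fintype ι] [DecidableEq ι] [Fintype κ] [DecidableEq κ]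
    {n k₁ k₂ m : ℤ} {a w X Y : Matrix ι ι ℤ} {β R : Matrix κ κ ℤ}
    (hF : FS n k₁ k₂ a w X Y) (hC : Core3 m β R) (heq : (m + 1) * k₁ + (m - 3) * k₂ = n) :
    ∃ S : Matrix (ι × κ) (ι × κ) ℤ, (∀ x y, Tern (S x y)) ∧
      S * Sᵀ = (n * m - 1) • (1 : Matrix (ι × κ) (ι × κ) ℤ) := by
  obtain ⟨J, hJ⟩ : ∃ J : Matrix κ κ ℤ, J = Matrix.of (fun _ _ => (1 : ℤ)) := ⟨_, rfl⟩
  have hββ : β * β = J - m • (1 : Matrix κ κ ℤ) := by rw [hJ]; exact hC.ββ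
  have hβJ : β * J = 0 := by rw [hJ]; exact hC.βJ
  have hJβ : J * β = 0 := by rw [hJ]; exact hC.Jβ
  have hJJ : J * J = m • J := by rw [hJ]; exact hC.JJ
  have hJR : J * R = J := by rw [hJ]; exact hC.JR
  have hRJ : R * J = J := by rw [hJ]; exact hC.RJ
  have hJt : Jᵀ = J := by rw [hJ]; rfl
  have hRβ : R * β = -(β * R) := by rw [hC.βR, neg_neg]
  obtain ⟨D, hD⟩ : ∃ D : Matrix κ κ ℤ, D = J - (2 : ℤ) • R := ⟨_, rfl⟩
  have hDt : Dᵀ = D := by rw [hD, transpose_sub, transpose_smul, hJt, hC.Rt]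
  have hDD : D * D = (m - 4) • J + (4 : ℤ) • (1 : Matrix κ κ ℤ) := by
    rw [hD]
    simp only [sub_mul, mul_sub, smul_mul_assoc, mul_smul_comm, hJJ, hJR, hRJ, hC.RR]
    module
  have hJD : J * D = (m - 2) • J := by
    rw [hD]
    simp only [mul_sub, mul_smul_comm, hJJ, hJR]
    module
  have hDJ : D * J = (m - 2) • J := by
    rw [hD]
    simp only [sub_mul, smul_mul_assoc, hJJ, hRJ]
    module
  have hβD : β * D = (-2 : ℤ) • (β * R) := by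
    rw [hD]
    simp only [mul_sub, mul_smul_comm, hβJ]
    module
  have hDβ : D * β = (2 : ℤ) • (β * R) := by
    rw [hD]
    simp only [sub_mul, smul_mul_assoc, hJβ, hRβ]
    module
  refine ⟨a ⊗ₖ (1 : Matrix κ κ ℤ) + w ⊗ₖ β + X ⊗ₖ J + Y ⊗ₖ D, ?_, ?_⟩
  · rintro ⟨i, k⟩ ⟨j, l⟩
    have h1 := hF.s1 i j
    have h2 := hF.s2 i j
    have h3 := hC.s1 k l
    have h4 := hC.s2 k l
    have hS : (a ⊗ₖ (1 : Matrix κ κ ℤ) + w ⊗ₖ β + X ⊗ₖ J + Y ⊗ₖ D) (i, k) (j, l) =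
        a i j * (1 : Matrix κ κ ℤ) k l + w i j * β k l + X i j +
          Y i j * (1 - 2 * R k l) := by
      rw [Matrix.add_apply, Matrix.add_apply, Matrix.add_apply, Matrix.kroneckerMap_apply,
        Matrix.kroneckerMap_apply, Matrix.kroneckerMap_apply, Matrix.kroneckerMap_apply, hD, hJ,
        Matrix.sub_apply, Matrix.smul_apply, smul_eq_mul]
      simp only [Matrix.of_apply, mul_one]
    rw [hS]
    have hw := sqc (w i j) (by nlinarith [sq_nonneg (X i j), sq_nonneg (Y i j)])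
    have hX := sqc (X i j) (by nlinarith [sq_nonneg (w i j), sq_nonneg (Y i j)])
    have hY := sqc (Y i j) (by nlinarith [sq_nonneg (X i j), sq_nonneg (w i j)])
    have h10 : (1 : Matrix κ κ ℤ) k l = 0 ∨ (1 : Matrix κ κ ℤ) k l = 1 := by
      by_cases h : k = l
      · right; rw [h, Matrix.one_apply_eq]
      · left; exact Matrix.one_apply_ne h
    have h11 : (1 : Matrix ι ι ℤ) i j = 0 ∨ (1 : Matrix ι ι ℤ) i j = 1 := by
      by_cases h : i = j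
      · right; rw [h, Matrix.one_apply_eq]
      · left; exact Matrix.one_apply_ne h
    have ha := sqc (a i j) (by
      rcases h11 with h | h <;> rw [h] at h1 <;>
        nlinarith [sq_nonneg (X i j), sq_nonneg (Y i j)])
    have hβ := sqc (β k l) (by rcases h10 with h | h <;> rw [h] at h3 <;> linarith)
    unfold Tern
    rcases hw with hw | hw | hw <;> rcases hX with hX | hX | hX <;> rcases hY with hY | hY | hY <;>
      simp only [hw, hX, hY] at h1 h2 ⊢ <;> norm_num at h2 <;>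
      rcases ha with ha | ha | ha <;> simp only [ha] at h1 ⊢ <;>
      rcases h11 with h11 | h11 <;> simp only [h11] at h1 <;> norm_num at h1 <;>
      rcases h10 with h10 | h10 <;> simp only [h10] at h3 ⊢ <;>
      rcases hβ with hβ | hβ | hβ <;> simp only [hβ] at h3 ⊢ <;> norm_num at h3 <;>
      rcases h4 with h4 | h4 <;> simp only [h4] <;> norm_num
  · have ht : (a ⊗ₖ (1 : Matrix κ κ ℤ) + w ⊗ₖ β + X ⊗ₖ J + Y ⊗ₖ D)ᵀ =
        -(a ⊗ₖ (1 : Matrix κ κ ℤ) + w ⊗ₖ β + X ⊗ₖ J + Y ⊗ₖ D) := by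
      rw [transpose_add, transpose_add, transpose_add, ← kroneckerMap_transpose,
        ← kroneckerMap_transpose, ← kroneckerMap_transpose, ← kroneckerMap_transpose,
        hF.at_, hF.wt, hF.Xt, hF.Yt, transpose_one, hC.βt, hJt, hDt, negK, Kneg, negK, negK]
      abel
    have e1 : a ⊗ₖ (1 : Matrix κ κ ℤ) * a ⊗ₖ (1 : Matrix κ κ ℤ) =
        (-(n - k₁ - k₂ - 1)) • (1 : Matrix (ι × κ) (ι × κ) ℤ) := by
      rw [← mul_kronecker_mul, hF.aa, negK, smul_kronecker, one_mul, one_kronecker_one]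
      module
    have e2 : a ⊗ₖ (1 : Matrix κ κ ℤ) * w ⊗ₖ β = -(w ⊗ₖ β * a ⊗ₖ (1 : Matrix κ κ ℤ)) := by
      rw [← mul_kronecker_mul, ← mul_kronecker_mul, hF.aw, negK, one_mul, mul_one]
    have e3 : a ⊗ₖ (1 : Matrix κ κ ℤ) * X ⊗ₖ J = -(X ⊗ₖ J * a ⊗ₖ (1 : Matrix κ κ ℤ)) := by
      rw [← mul_kronecker_mul, ← mul_kronecker_mul, hF.aX, negK, one_mul, mul_one]
    have e4 : a ⊗ₖ (1 : Matrix κ κ ℤ) * Y ⊗ₖ D = -(Y ⊗ₖ D * a ⊗ₖ (1 : Matrix κ κ ℤ)) := by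
      rw [← mul_kronecker_mul, ← mul_kronecker_mul, hF.aY, negK, one_mul, mul_one]
    have e5 : w ⊗ₖ β * w ⊗ₖ β = (n - k₁ - k₂) • ((1 : Matrix ι ι ℤ) ⊗ₖ J) -
        ((n - k₁ - k₂) * m) • (1 : Matrix (ι × κ) (ι × κ) ℤ) := by
      rw [← mul_kronecker_mul, hF.ww, hββ, smul_kronecker, sub_eq_add_neg J, kronecker_add, Kneg,
        kronecker_smul, one_kronecker_one]
      module
    have e6 : w ⊗ₖ β * X ⊗ₖ J = 0 := by
      rw [← mul_kronecker_mul, hβJ, kronecker_zero]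
    have e7 : X ⊗ₖ J * w ⊗ₖ β = 0 := by
      rw [← mul_kronecker_mul, hJβ, kronecker_zero]
    have e8 : w ⊗ₖ β * Y ⊗ₖ D = -(Y ⊗ₖ D * w ⊗ₖ β) := by
      rw [← mul_kronecker_mul, ← mul_kronecker_mul, hβD, hDβ, hF.wY, kronecker_smul,
        kronecker_smul]
      module
    have e9 : X ⊗ₖ J * X ⊗ₖ J = (-(k₁ * m)) • ((1 : Matrix ι ι ℤ) ⊗ₖ J) := by
      rw [← mul_kronecker_mul, hF.XX, hJJ, negK, smul_kronecker, kronecker_smul]
      module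
    have e10 : X ⊗ₖ J * Y ⊗ₖ D = -(Y ⊗ₖ D * X ⊗ₖ J) := by
      rw [← mul_kronecker_mul, ← mul_kronecker_mul, hJD, hDJ, hF.XY, negK]
    have e11 : Y ⊗ₖ D * Y ⊗ₖ D = (-(k₂ * (m - 4))) • ((1 : Matrix ι ι ℤ) ⊗ₖ J) +
        (-(4 * k₂)) • (1 : Matrix (ι × κ) (ι × κ) ℤ) := by
      rw [← mul_kronecker_mul, hF.YY, hDD, negK, smul_kronecker, kronecker_add, kronecker_smul,
        kronecker_smul, one_kronecker_one]
      module
    have hS2 : (a ⊗ₖ (1 : Matrix κ κ ℤ) + w ⊗ₖ β + X ⊗ₖ J + Y ⊗ₖ D) *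
        (a ⊗ₖ (1 : Matrix κ κ ℤ) + w ⊗ₖ β + X ⊗ₖ J + Y ⊗ₖ D) =
        (-(n - k₁ - k₂ - 1) - (n - k₁ - k₂) * m - 4 * k₂) • (1 : Matrix (ι × κ) (ι × κ) ℤ) +
        ((n - k₁ - k₂) - k₁ * m - k₂ * (m - 4)) • ((1 : Matrix ι ι ℤ) ⊗ₖ J) := by
      simp only [add_mul, mul_add]
      rw [e1, e2, e3, e4, e5, e6, e7, e8, e9, e10, e11]
      module
    rw [ht, mul_neg, hS2,
      show (n - k₁ - k₂) - k₁ * m - k₂ * (m - 4) = 0 by linear_combination -heq, zero_smul,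
      add_zero, ← neg_smul]
    congr 1
    linear_combination -heq

end Pool.Agent.Lib.MP_be2ccc_co.SH
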