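import Mathlib
import Pool.Agent.Lib.MP_be2ccc_co.SH.Defs

/-!
# SH-HSt: the structure `HS` exists in every order `2^h`, for every `l < 2^h`

Base (type `Unit`): `a = Y = b = f = 0`, `w = N = 1`.
Steps: `fromBlocks` computations only, as in SH-RSt. `w ⊗ K + b ⊗ E` is
`fromBlocks w (w + b) (w - b) (-w)`, `b ⊗ K + w ⊗ E` is `fromBlocks b (b + w) (b - w) (-b)`.
Support fields: `b x y^2 = Y x y^2` and `w x y^2 + Y x y^2 = 1` give `w x y = 0 ∨ b x y = 0`
(integers), so `(w x y ± b x y)^2 = 1`; skew matrices have zero diagonal.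
`hs_exists` by induction on `h`: `l < 2^h` uses `hs_stepS`, `l = 2^h + l'` uses `hs_stepY`.
-/

set_option autoImplicit false

namespace Pool.Agent.Lib.MP_be2ccc_co.SH

open Matrix

private theorem hst_sq {u v : ℤ} (h : u ^ 2 + v ^ 2 = 1) : (u + v) ^ 2 = 1 ∧ (u - v) ^ 2 = 1 := by
  have h1 : u ≤ 1 := by nlinarith [sq_nonneg v]
  have h2 : -1 ≤ u := by nlinarith [sq_nonneg v]
  have h3 : v ≤ 1 := by nlinarith [sq_nonneg u]
  have h4 : -1 ≤ v := by nlinarith [sq_nonneg u]
  interval_cases u <;> interval_cases v <;> simp_all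

private theorem hst_sq1 {u v : ℤ} (h : u ^ 2 + v = 1) (hv : v = 0 ∨ v = 1) :
    (u + v) ^ 2 = 1 ∧ (u - v) ^ 2 = 1 := by
  rcases hv with hv | hv
  · subst hv
    constructor <;> linarith
  · subst hv
    have : u = 0 := by
      have : u ^ 2 = 0 := by linarith
      exact pow_eq_zero_iff (two_ne_zero) |>.mp this
    subst this
    constructor <;> norm_num

private theorem hst_one {ι : Type} [DecidableEq ι] (x y : ι) :
    (1 : Matrix ι ι ℤ) x y = 0 ∨ (1 : Matrix ι ι ℤ) x y = 1 := by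
  rw [Matrix.one_apply]
  split_ifs <;> simp

theorem hs_base : HS (ι := Unit) 1 0 0 0 1 0 1 0 := by
  constructor <;> simp

theorem hs_stepS {ι : Type} [Fintype ι] [DecidableEq ι] {n l : ℤ} {a Y w b N f : Matrix ι ι ℤ}
    (h : HS n l a Y w b N f) :
    HS (2 * n) l (fromBlocks a N (-N) a) (fromBlocks Y 0 0 Y) (fromBlocks w (w + b) (w - b) (-w))
      (fromBlocks b 0 0 b) (fromBlocks N N N (-N)) (fromBlocks f (f + 1) (f - 1) (-f)) := by
  have hwb : ∀ x y, w x y ^ 2 + b x y ^ 2 = 1 := fun x y => by rw [h.s3]; exact h.s2 x y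
  constructor
  case s1 =>
    rintro (x | x) (y | y)
    · simpa [Matrix.one_apply] using h.s1 x y
    · simp [h.s4 x y, (hst_sq (hwb x y)).1]
    · simp [h.s4 x y, (hst_sq (hwb x y)).2]
    · simpa [Matrix.one_apply] using h.s1 x y
  case s2 =>
    rintro (x | x) (y | y)
    · simpa using h.s2 x y
    · simp [(hst_sq (hwb x y)).1]
    · simp [(hst_sq (hwb x y)).2]
    · simpa using h.s2 x y
  case s3 =>
    rintro (x | x) (y | y) <;> simp [h.s3 x y]
  case s4 =>
    rintro (x | x) (y | y) <;> simp [h.s4 x y]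
  case s5 =>
    rintro (x | x) (y | y)
    · simpa [Matrix.one_apply] using h.s5 x y
    · simp [(hst_sq1 (h.s5 x y) (hst_one x y)).1]
    · simp [(hst_sq1 (h.s5 x y) (hst_one x y)).2]
    · simpa [Matrix.one_apply] using h.s5 x y
  all_goals
    simp only [fromBlocks_transpose, fromBlocks_neg, fromBlocks_multiply, ← fromBlocks_one,
      fromBlocks_smul, Matrix.transpose_add, Matrix.transpose_sub, Matrix.transpose_neg,
      Matrix.transpose_zero, Matrix.transpose_one, h.at_, h.Yt, h.wt, h.bt, h.Nt, h.ft]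
  all_goals
    try simp only [mul_add, add_mul, mul_sub, sub_mul, mul_neg, neg_mul, neg_neg, mul_zero,
      zero_mul, mul_one, one_mul, h.aa, h.YY, h.ww, h.bb, h.NN, h.ff, h.aw, h.aY, h.ab, h.aN,
      h.af, h.wY, h.wb, h.wN, h.Yb, h.YN, h.Yf, h.bN, h.fN]
  all_goals
    refine Matrix.fromBlocks_inj.mpr ⟨?_, ?_, ?_, ?_⟩
  all_goals module

theorem hs_stepY {ι : Type} [Fintype ι] [DecidableEq ι] {n l : ℤ} {a Y w b N f : Matrix ι ι ℤ}
    (h : HS n l a Y w b N f) :
    HS (2 * n) (l + n) (fromBlocks a 0 0 a) (fromBlocks Y N (-N) Y) (fromBlocks w 0 0 w)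
      (fromBlocks b (b + w) (b - w) (-b)) (fromBlocks N N N (-N))
      (fromBlocks f (f + 1) (f - 1) (-f)) := by
  have hwb : ∀ x y, b x y ^ 2 + w x y ^ 2 = 1 := fun x y => by
    rw [h.s3, add_comm]; exact h.s2 x y
  constructor
  case s1 =>
    rintro (x | x) (y | y)
    · simpa [Matrix.one_apply] using h.s1 x y
    · simp
    · simp
    · simpa [Matrix.one_apply] using h.s1 x y
  case s2 =>
    rintro (x | x) (y | y)
    · simpa using h.s2 x y
    · simp [h.s4 x y]
    · simp [h.s4 x y]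
    · simpa using h.s2 x y
  case s3 =>
    rintro (x | x) (y | y)
    · simp [h.s3 x y]
    · simp [(hst_sq (hwb x y)).1, h.s4 x y]
    · simp [(hst_sq (hwb x y)).2, h.s4 x y]
    · simp [h.s3 x y]
  case s4 =>
    rintro (x | x) (y | y) <;> simp [h.s4 x y]
  case s5 =>
    rintro (x | x) (y | y)
    · simpa [Matrix.one_apply] using h.s5 x y
    · simp [(hst_sq1 (h.s5 x y) (hst_one x y)).1]
    · simp [(hst_sq1 (h.s5 x y) (hst_one x y)).2]
    · simpa [Matrix.one_apply] using h.s5 x y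
  all_goals
    simp only [fromBlocks_transpose, fromBlocks_neg, fromBlocks_multiply, ← fromBlocks_one,
      fromBlocks_smul, Matrix.transpose_add, Matrix.transpose_sub, Matrix.transpose_neg,
      Matrix.transpose_zero, Matrix.transpose_one, h.at_, h.Yt, h.wt, h.bt, h.Nt, h.ft]
  all_goals
    try simp only [mul_add, add_mul, mul_sub, sub_mul, mul_neg, neg_mul, neg_neg, mul_zero,
      zero_mul, mul_one, one_mul, h.aa, h.YY, h.ww, h.bb, h.NN, h.ff, h.aw, h.aY, h.ab, h.aN,
      h.af, h.wY, h.wb, h.wN, h.Yb, h.YN, h.Yf, h.bN, h.fN]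
  all_goals
    refine Matrix.fromBlocks_inj.mpr ⟨?_, ?_, ?_, ?_⟩
  all_goals module

theorem hs_exists (h l : ℕ) (hl : l < 2 ^ h) :
    ∃ (ι : Type) (_ : Fintype ι) (_ : DecidableEq ι) (a Y w b N f : Matrix ι ι ℤ),
      Fintype.card ι = 2 ^ h ∧ HS (2 ^ h : ℤ) (l : ℤ) a Y w b N f := by
  induction h generalizing l with
  | zero =>
    have hl0 : l = 0 := by simpa using hl
    subst hl0
    exact ⟨Unit, inferInstance, inferInstance, 0, 0, 1, 0, 1, 0, by simp, by simpa using hs_base⟩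
  | succ h ih =>
    by_cases hlt : l < 2 ^ h
    · obtain ⟨ι, i1, i2, a, Y, w, b, N, f, hc, hH⟩ := ih l hlt
      have h2 := hs_stepS hH
      rw [show (2 : ℤ) * 2 ^ h = 2 ^ (h + 1) by ring] at h2
      exact ⟨ι ⊕ ι, inferInstance, inferInstance, _, _, _, _, _, _,
        by rw [Fintype.card_sum, hc]; ring, h2⟩
    · have hl2 : l - 2 ^ h < 2 ^ h := by
        have : 2 ^ (h + 1) = 2 ^ h + 2 ^ h := by ring
        omega
      obtain ⟨ι, i1, i2, a, Y, w, b, N, f, hc, hH⟩ := ih (l - 2 ^ h) hl2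
      have h2 := hs_stepY hH
      rw [show (2 : ℤ) * 2 ^ h = 2 ^ (h + 1) by ring,
        show ((l - 2 ^ h : ℕ) : ℤ) + 2 ^ h = (l : ℤ) by
          rw [Nat.cast_sub (not_lt.mp hlt)]; push_cast; ring] at h2
      exact ⟨ι ⊕ ι, inferInstance, inferInstance, _, _, _, _, _, _,
        by rw [Fintype.card_sum, hc]; ring, h2⟩

end Pool.Agent.Lib.MP_be2ccc_co.SH
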