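import Mathlib
import Pool.Agent.Lib.MP_be2ccc_co.SH.Defs

/-!
# the intermediate list of relations between `RS ⊗ HS` and `FS` (no proofs)
-/

set_option autoImplicit false

namespace Pool.Agent.Lib.MP_be2ccc_co.SH

open Matrix

/-- `v * v' = v' * v = s`; `A`, `B`, `W`, `V`, `V'`, `X`, `Y` are the blocks of the frame -/
structure MX {ι : Type} [Fintype ι] [DecidableEq ι] (α β ω s ξ υ : ℤ)
    (A B W V V' X Y : Matrix ι ι ℤ) : Prop where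
  At : Aᵀ = -A
  Bt : Bᵀ = -B
  Wt : Wᵀ = W
  Vt : Vᵀ = V'
  Xt : Xᵀ = -X
  Yt : Yᵀ = -Y
  AA : A * A = -(α • (1 : Matrix ι ι ℤ))
  BB : B * B = -(β • (1 : Matrix ι ι ℤ))
  WW : W * W = ω • (1 : Matrix ι ι ℤ)
  VV' : V * V' = s • (1 : Matrix ι ι ℤ)
  V'V : V' * V = s • (1 : Matrix ι ι ℤ)
  XX : X * X = -(ξ • (1 : Matrix ι ι ℤ))
  YY : Y * Y = -(υ • (1 : Matrix ι ι ℤ))
  AB : A * B = B * A
  AW : A * W = -(W * A)
  BV' : B * V' = -(V * B)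
  BV : B * V = -(V' * B)
  AV : A * V = V * A
  AV' : A * V' = V' * A
  BW : B * W = -(W * B)
  WV : W * V = -(V * W)
  WV' : W * V' = -(V' * W)
  WY : W * Y = Y * W
  VY : V * Y = -(Y * V)
  V'Y : V' * Y = -(Y * V')
  AY : A * Y = -(Y * A)
  BY : B * Y = Y * B
  BX : B * X = -(X * B)
  AX : A * X = X * A
  XY : X * Y = Y * X
  s1 : ∀ x y, A x y ^ 2 + (1 : Matrix ι ι ℤ) x y = W x y ^ 2
  s2 : ∀ x y, W x y ^ 2 + Y x y ^ 2 = 1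
  s3 : ∀ x y, B x y ^ 2 = V x y ^ 2
  s4 : ∀ x y, B x y ^ 2 = V' x y ^ 2
  s5 : ∀ x y, V x y ^ 2 + (X x y + (1 : Matrix ι ι ℤ) x y) ^ 2 = 1
  s6 : ∀ x y, V' x y ^ 2 + (X x y - (1 : Matrix ι ι ℤ) x y) ^ 2 = 1

end Pool.Agent.Lib.MP_be2ccc_co.SH
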