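import Mathlib
import Pool.Agent.Lib.MP_be2ccc_co.SH.MixDefs

/-!
# SH-MixA: the Kronecker products of `RS` and `HS` satisfy the relations `MX`

All product relations: expand with `Matrix.add_mul`, `Matrix.mul_add`, move everything into
`kroneckerMap` products by `← Matrix.mul_kronecker_mul` (`(A * B) ⊗ₖ (A' * B') = A ⊗ₖ A' * B ⊗ₖ B'`),
use the (anti)commutation fields of `h1`, `h2`, and `neg`/`smul`/`add` lemmas of `kroneckerMap`
(`kronecker_add`, `add_kronecker`, `smul_kronecker`, `kronecker_smul`, `one_kronecker_one`, and for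
signs write `-M = (-1 : ℤ) • M` or prove `(-M) ⊗ₖ N = -(M ⊗ₖ N)` by `ext`). Examples:
`A A = (a₁ a₁) ⊗ 1 + (G G) ⊗ (a₂ a₂) + (a₁ G + G a₁) ⊗ a₂`, `V V' = (e e) ⊗ ((b + w)(b - w))`,
`(b + w)(b - w) = b b - w w`, `X X = (d d) ⊗ (N N) + 1 ⊗ (f f) + d ⊗ (N f + f N)`.
Supports: `kroneckerMap_apply`, `a₂ x x = 0` (skew), `1 x y = 0 ∨ 1 x y = 1`,
`b x y = 0 ∨ w x y = 0`; e.g. `A² = a₁² 1 + a₂²` entrywise, and `a₁² + 1 = 1`-field `s1` of `RS`.
-/

set_option autoImplicit false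

namespace Pool.Agent.Lib.MP_be2ccc_co.SH

open Matrix Kronecker

section kro

variable {ι κ : Type} [Fintype ι] [DecidableEq ι] [Fintype κ] [DecidableEq κ]

private theorem kmul (A B : Matrix ι ι ℤ) (C D : Matrix κ κ ℤ) :
    (A ⊗ₖ C) * (B ⊗ₖ D) = (A * B) ⊗ₖ (C * D) := (Matrix.mul_kronecker_mul A B C D).symm

omit [Fintype ι] [DecidableEq ι] [Fintype κ] [DecidableEq κ] in
private theorem kadd (A : Matrix ι ι ℤ) (C D : Matrix κ κ ℤ) :
    A ⊗ₖ (C + D) = A ⊗ₖ C + A ⊗ₖ D := by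
  ext ⟨i, j⟩ ⟨k, l⟩
  simp only [kroneckerMap_apply, Matrix.add_apply]
  ring

omit [Fintype ι] [DecidableEq ι] [Fintype κ] [DecidableEq κ] in
private theorem ksub (A : Matrix ι ι ℤ) (C D : Matrix κ κ ℤ) :
    A ⊗ₖ (C - D) = A ⊗ₖ C - A ⊗ₖ D := by
  ext ⟨i, j⟩ ⟨k, l⟩
  simp only [kroneckerMap_apply, Matrix.sub_apply]
  ring

omit [Fintype ι] [DecidableEq ι] [Fintype κ] [DecidableEq κ] in
private theorem kneg (A : Matrix ι ι ℤ) (C : Matrix κ κ ℤ) : A ⊗ₖ (-C) = -(A ⊗ₖ C) := by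
  ext ⟨i, j⟩ ⟨k, l⟩
  simp only [kroneckerMap_apply, Matrix.neg_apply]
  ring

omit [Fintype ι] [DecidableEq ι] [Fintype κ] [DecidableEq κ] in
private theorem negk (A : Matrix ι ι ℤ) (C : Matrix κ κ ℤ) : (-A) ⊗ₖ C = -(A ⊗ₖ C) := by
  ext ⟨i, j⟩ ⟨k, l⟩
  simp only [kroneckerMap_apply, Matrix.neg_apply]
  ring

omit [Fintype ι] [DecidableEq ι] [Fintype κ] [DecidableEq κ] in
private theorem ksmul (n : ℤ) (A : Matrix ι ι ℤ) (C : Matrix κ κ ℤ) :
    A ⊗ₖ (n • C) = n • (A ⊗ₖ C) := by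
  ext ⟨i, j⟩ ⟨k, l⟩
  simp only [kroneckerMap_apply, Matrix.smul_apply, smul_eq_mul]
  ring

omit [Fintype ι] [DecidableEq ι] [Fintype κ] [DecidableEq κ] in
private theorem smulk (n : ℤ) (A : Matrix ι ι ℤ) (C : Matrix κ κ ℤ) :
    (n • A) ⊗ₖ C = n • (A ⊗ₖ C) := by
  ext ⟨i, j⟩ ⟨k, l⟩
  simp only [kroneckerMap_apply, Matrix.smul_apply, smul_eq_mul]
  ring

omit [Fintype ι] [DecidableEq ι] [Fintype κ] [DecidableEq κ] in
private theorem ktr (A : Matrix ι ι ℤ) (C : Matrix κ κ ℤ) : (A ⊗ₖ C)ᵀ = Aᵀ ⊗ₖ Cᵀ := rfl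

private theorem kone : (1 : Matrix ι ι ℤ) ⊗ₖ (1 : Matrix κ κ ℤ) = 1 := Matrix.one_kronecker_one

omit [Fintype ι] [Fintype κ] in
private theorem oneA (i k : ι) (j l : κ) : (1 : Matrix (ι × κ) (ι × κ) ℤ) (i, j) (k, l) =
    (1 : Matrix ι ι ℤ) i k * (1 : Matrix κ κ ℤ) j l := by
  by_cases h1 : i = k
  · by_cases h2 : j = l
    · subst h1; subst h2
      simp
    · rw [Matrix.one_apply_ne (fun h => h2 (Prod.ext_iff.mp h).2), Matrix.one_apply_ne h2, mul_zero]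
  · rw [Matrix.one_apply_ne (fun h => h1 (Prod.ext_iff.mp h).1), Matrix.one_apply_ne h1, zero_mul]

omit [Fintype ι] [DecidableEq ι] in
private theorem dg {a : Matrix ι ι ℤ} (h : aᵀ = -a) (i : ι) : a i i = 0 := by
  have h1 := congrFun (congrFun h i) i
  simp only [Matrix.transpose_apply, Matrix.neg_apply] at h1
  omega

private theorem sq01 {u v : ℤ} (h : u ^ 2 + v ^ 2 = 1) : u * v = 0 := by
  by_contra h1
  have hu : u ≠ 0 := fun h2 => h1 (by rw [h2, zero_mul])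
  have hv : v ≠ 0 := fun h2 => h1 (by rw [h2, mul_zero])
  have h3 : 0 < u ^ 2 := by positivity
  have h4 : 0 < v ^ 2 := by positivity
  omega

end kro

theorem mixA {ι κ : Type} [Fintype ι] [DecidableEq ι] [Fintype κ] [DecidableEq κ]
    {n₁ c μ n₂ l : ℤ} {a₁ G e d : Matrix ι ι ℤ} {a₂ Y w b N f : Matrix κ κ ℤ}
    (h1 : RS n₁ c μ a₁ G e d) (h2 : HS n₂ l a₂ Y w b N f) :
    MX (n₁ * n₂ - n₁ * l - 1) (c * n₂) (n₁ * (n₂ - l)) (c * n₂) ((μ + 1) * n₂ - 1) (n₁ * l)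
      (a₁ ⊗ₖ (1 : Matrix κ κ ℤ) + G ⊗ₖ a₂) (e ⊗ₖ N) (G ⊗ₖ w) (e ⊗ₖ (b + w)) (e ⊗ₖ (b - w))
      (d ⊗ₖ N + (1 : Matrix ι ι ℤ) ⊗ₖ f) (G ⊗ₖ Y) := by
  have w0 : ∀ x y, b x y * w x y = 0 := by
    intro x y
    rcases mul_eq_zero.mp (sq01 (h2.s2 x y)) with h3 | h3
    · rw [h3, mul_zero]
    · have h4 := h2.s3 x y
      rw [h3, zero_pow two_ne_zero] at h4
      rw [pow_eq_zero_iff two_ne_zero |>.mp h4, zero_mul]
  have w1 : ∀ x y, (b x y + w x y) ^ 2 = 1 := by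
    intro x y
    have h3 := h2.s2 x y
    have h4 := h2.s3 x y
    have h5 := w0 x y
    linear_combination h3 + h4 + 2 * h5
  have w2 : ∀ x y, (b x y - w x y) ^ 2 = 1 := by
    intro x y
    have h3 := h2.s2 x y
    have h4 := h2.s3 x y
    have h5 := w0 x y
    linear_combination h3 + h4 - 2 * h5
  refine
    { At := ?_, Bt := ?_, Wt := ?_, Vt := ?_, Xt := ?_, Yt := ?_, AA := ?_, BB := ?_, WW := ?_,
      VV' := ?_, V'V := ?_, XX := ?_, YY := ?_, AB := ?_, AW := ?_, BV' := ?_, BV := ?_, AV := ?_,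
      AV' := ?_, BW := ?_, WV := ?_, WV' := ?_, WY := ?_, VY := ?_, V'Y := ?_, AY := ?_, BY := ?_,
      BX := ?_, AX := ?_, XY := ?_, s1 := ?_, s2 := ?_, s3 := ?_, s4 := ?_, s5 := ?_, s6 := ?_ }
  · rw [Matrix.transpose_add, ktr, ktr, Matrix.transpose_one, h1.at_, h1.Gt, h2.at_, negk, kneg]
    abel
  · rw [ktr, h1.et, h2.Nt, negk]
  · rw [ktr, h1.Gt, h2.wt]
  · rw [ktr, Matrix.transpose_add, h1.et, h2.bt, h2.wt, kadd, negk, negk, kneg, ksub]
    abel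
  · rw [Matrix.transpose_add, ktr, ktr, Matrix.transpose_one, h1.dt, h2.Nt, h2.ft, negk, kneg]
    abel
  · rw [ktr, h1.Gt, h2.Yt, kneg]
  all_goals try simp only [Matrix.add_mul, Matrix.mul_add, Matrix.sub_mul, Matrix.mul_sub, kmul,
    Matrix.one_mul, Matrix.mul_one, h1.aa, h1.GG, h1.ee, h1.dd, h1.aG, h1.ea, h1.da, h1.eG, h1.dG,
    h1.ed, h2.aa, h2.YY, h2.ww, h2.bb, h2.NN, h2.ff, h2.aw, h2.aY, h2.ab, h2.aN, h2.af, h2.wY,
    h2.wb, h2.wN, h2.Yb, h2.YN, h2.Yf, h2.bN, h2.fN, kadd, ksub, kneg, negk, ksmul, smulk,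
    kone]
  all_goals try module
  · rintro ⟨i, j⟩ ⟨k, l⟩
    simp only [Matrix.add_apply, kroneckerMap_apply, oneA]
    have e1 := h1.s1 i k
    have e2 := h1.s2 i k
    have e3 := h2.s1 j l
    by_cases hjl : j = l
    · subst hjl
      rw [Matrix.one_apply_eq] at e3 ⊢
      rw [dg h2.at_ j] at e3 ⊢
      linear_combination e1 + e3 - w j j ^ 2 * e2
    · rw [Matrix.one_apply_ne hjl] at e3 ⊢
      linear_combination a₂ j l ^ 2 * e2 + e3 - w j l ^ 2 * e2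
  · rintro ⟨i, j⟩ ⟨k, l⟩
    simp only [kroneckerMap_apply]
    have e2 := h1.s2 i k
    have e3 := h2.s2 j l
    linear_combination (w j l ^ 2 + Y j l ^ 2) * e2 + e3
  · rintro ⟨i, j⟩ ⟨k, l⟩
    simp only [kroneckerMap_apply, Matrix.add_apply]
    have e2 := h2.s4 j l
    have e3 := w1 j l
    linear_combination e i k ^ 2 * e2 - e i k ^ 2 * e3
  · rintro ⟨i, j⟩ ⟨k, l⟩
    simp only [kroneckerMap_apply, Matrix.sub_apply]
    have e2 := h2.s4 j l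
    have e3 := w2 j l
    linear_combination e i k ^ 2 * e2 - e i k ^ 2 * e3
  · rintro ⟨i, j⟩ ⟨k, l⟩
    simp only [kroneckerMap_apply, Matrix.add_apply, oneA]
    have e1 := h1.s3 i k
    have e2 := h2.s4 j l
    have e3 := w1 j l
    have e4 := h2.s5 j l
    by_cases hik : i = k
    · subst hik
      rw [Matrix.one_apply_eq, dg h1.et i, dg h1.dt i]
      by_cases hjl : j = l
      · subst hjl
        rw [Matrix.one_apply_eq, dg h2.ft j]
        ring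
      · rw [Matrix.one_apply_ne hjl] at e4 ⊢
        linear_combination e4
    · rw [Matrix.one_apply_ne hik] at e1 ⊢
      linear_combination e i k ^ 2 * e3 + d i k ^ 2 * e2 + e1
  · rintro ⟨i, j⟩ ⟨k, l⟩
    simp only [kroneckerMap_apply, Matrix.add_apply, Matrix.sub_apply, oneA]
    have e1 := h1.s3 i k
    have e2 := h2.s4 j l
    have e3 := w2 j l
    have e4 := h2.s5 j l
    by_cases hik : i = k
    · subst hik
      rw [Matrix.one_apply_eq, dg h1.et i, dg h1.dt i]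
      by_cases hjl : j = l
      · subst hjl
        rw [Matrix.one_apply_eq, dg h2.ft j]
        ring
      · rw [Matrix.one_apply_ne hjl] at e4 ⊢
        linear_combination e4
    · rw [Matrix.one_apply_ne hik] at e1 ⊢
      linear_combination e i k ^ 2 * e3 + d i k ^ 2 * e2 + e1

end Pool.Agent.Lib.MP_be2ccc_co.SH
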