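import Mathlib
import Pool.Agent.Lib.MP_be2ccc_co.SH.MixDefs

/-!
# SH-MixB: from the relations `MX` to the frame `FS` (block matrices)

`fromBlocks_multiply`, `fromBlocks_transpose`, `fromBlocks_neg`, then the fields of `h`. The block
identities needed are exactly the fields of `MX`, e.g.
`a' w' + w' a'` has blocks `A W + W A + B V' + V B`, `A V - V A + B W + W B`, ...;
`a' X' + X' a'` has blocks `B X + X B`, `A X - X A`, ...; `X' X' = (X + 1)(X - 1) = X X - 1`.
-/

set_option autoImplicit false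

namespace Pool.Agent.Lib.MP_be2ccc_co.SH

open Matrix

private theorem smul_one_blocks {ι : Type} [DecidableEq ι] (c : ℤ) :
    c • (1 : Matrix (ι ⊕ ι) (ι ⊕ ι) ℤ) = fromBlocks (c • (1 : Matrix ι ι ℤ)) 0 0 (c • 1) := by
  rw [← fromBlocks_one, fromBlocks_smul, smul_zero]

theorem mixB {ι : Type} [Fintype ι] [DecidableEq ι] {α β ω s ξ υ n k₁ k₂ : ℤ}
    {A B W V V' X Y : Matrix ι ι ℤ} (h : MX α β ω s ξ υ A B W V V' X Y)
    (e1 : α + β = n - k₁ - k₂ - 1) (e2 : ω + s = n - k₁ - k₂) (e3 : ξ + 1 = k₁) (e4 : υ = k₂) :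
    FS n k₁ k₂ (fromBlocks A B B (-A)) (fromBlocks W V V' W)
      (fromBlocks 0 (X + 1) (X - 1) 0) (fromBlocks Y 0 0 (-Y)) := by
  have hV't : V'ᵀ = V := by rw [← h.Vt, transpose_transpose]
  constructor
  · rw [fromBlocks_transpose, fromBlocks_neg]
    refine fromBlocks_inj.2 ⟨h.At, h.Bt, h.Bt, ?_⟩
    rw [transpose_neg, h.At]
  · rw [fromBlocks_transpose]
    exact fromBlocks_inj.2 ⟨h.Wt, hV't, h.Vt, h.Wt⟩
  · rw [fromBlocks_transpose, fromBlocks_neg]
    refine fromBlocks_inj.2 ⟨?_, ?_, ?_, ?_⟩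
    · rw [transpose_zero, neg_zero]
    · rw [transpose_sub, transpose_one, h.Xt]
      abel
    · rw [transpose_add, transpose_one, h.Xt]
      abel
    · rw [transpose_zero, neg_zero]
  · rw [fromBlocks_transpose, fromBlocks_neg]
    refine fromBlocks_inj.2 ⟨h.Yt, ?_, ?_, ?_⟩
    · rw [transpose_zero, neg_zero]
    · rw [transpose_zero, neg_zero]
    · rw [transpose_neg, h.Yt]
  · rw [fromBlocks_multiply, smul_one_blocks, fromBlocks_neg, ← e1]
    refine fromBlocks_inj.2 ⟨?_, ?_, ?_, ?_⟩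
    · rw [h.AA, h.BB]
      module
    · rw [mul_neg, h.AB]
      abel
    · rw [neg_mul, h.AB]
      abel
    · rw [neg_mul, mul_neg, neg_neg, h.AA, h.BB]
      module
  · rw [fromBlocks_multiply, smul_one_blocks, ← e2]
    refine fromBlocks_inj.2 ⟨?_, ?_, ?_, ?_⟩
    · rw [h.WW, h.VV']
      module
    · rw [h.WV]
      abel
    · rw [h.WV']
      abel
    · rw [h.WW, h.V'V]
      module
  · rw [fromBlocks_multiply, smul_one_blocks, fromBlocks_neg, ← e3]
    refine fromBlocks_inj.2 ⟨?_, ?_, ?_, ?_⟩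
    · rw [mul_zero, add_mul, mul_sub, mul_one, one_mul, h.XX]
      module
    · rw [zero_mul, mul_zero]
      abel
    · rw [zero_mul, mul_zero]
      abel
    · rw [mul_zero, sub_mul, mul_add, mul_one, one_mul, h.XX]
      module
  · rw [fromBlocks_multiply, smul_one_blocks, fromBlocks_neg, ← e4]
    refine fromBlocks_inj.2 ⟨?_, ?_, ?_, ?_⟩
    · rw [mul_zero, h.YY]
      module
    · rw [zero_mul, mul_zero]
      abel
    · rw [zero_mul, mul_zero]
      abel
    · rw [mul_zero, neg_mul, mul_neg, h.YY]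
      module
  · rw [fromBlocks_multiply, fromBlocks_multiply, fromBlocks_neg]
    refine fromBlocks_inj.2 ⟨?_, ?_, ?_, ?_⟩
    · rw [h.AW, h.BV']
      abel
    · rw [h.AV, h.BW, mul_neg]
      abel
    · rw [h.BW, neg_mul, h.AV']
      abel
    · rw [h.BV, neg_mul, h.AW, mul_neg]
      abel
  · rw [fromBlocks_multiply, fromBlocks_multiply, fromBlocks_neg]
    refine fromBlocks_inj.2 ⟨?_, ?_, ?_, ?_⟩
    · rw [mul_zero, zero_mul, mul_sub, add_mul, mul_one, one_mul, h.BX]
      abel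
    · rw [mul_zero, zero_mul, mul_add, mul_neg, add_mul, mul_one, one_mul, h.AX]
      abel
    · rw [mul_zero, zero_mul, neg_mul, mul_sub, sub_mul, mul_one, one_mul, h.AX]
      abel
    · rw [mul_zero, zero_mul, mul_add, sub_mul, mul_one, one_mul, h.BX]
      abel
  · rw [fromBlocks_multiply, fromBlocks_multiply, fromBlocks_neg]
    refine fromBlocks_inj.2 ⟨?_, ?_, ?_, ?_⟩
    · rw [mul_zero, zero_mul, h.AY]
      abel
    · rw [mul_zero, zero_mul, mul_neg, h.BY]
      abel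
    · rw [mul_zero, zero_mul, neg_mul, h.BY]
      abel
    · rw [mul_zero, zero_mul, neg_mul, neg_mul, mul_neg, mul_neg, h.AY]
      abel
  · rw [fromBlocks_multiply, fromBlocks_multiply, fromBlocks_neg]
    refine fromBlocks_inj.2 ⟨?_, ?_, ?_, ?_⟩
    · simp
    · rw [mul_neg, add_mul, one_mul, mul_add, mul_one, h.XY, zero_mul]
      abel
    · rw [neg_mul, sub_mul, one_mul, mul_sub, mul_one, h.XY, zero_mul]
      abel
    · simp
  · rw [fromBlocks_multiply, fromBlocks_multiply]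
    refine fromBlocks_inj.2 ⟨?_, ?_, ?_, ?_⟩
    · rw [mul_zero, zero_mul, h.WY]
    · rw [mul_zero, zero_mul, mul_neg, h.VY]
      abel
    · rw [mul_zero, zero_mul, neg_mul, h.V'Y]
      abel
    · rw [mul_zero, zero_mul, neg_mul, mul_neg, h.WY]
  · rintro (x | x) (y | y)
    · rw [fromBlocks_apply₁₁, fromBlocks_apply₁₁, ← h.s1 x y, ← fromBlocks_one, fromBlocks_apply₁₁]
    · rw [fromBlocks_apply₁₂, fromBlocks_apply₁₂, ← h.s3 x y, ← fromBlocks_one, fromBlocks_apply₁₂,
        Matrix.zero_apply, add_zero]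
    · rw [fromBlocks_apply₂₁, fromBlocks_apply₂₁, ← h.s4 x y, ← fromBlocks_one, fromBlocks_apply₂₁,
        Matrix.zero_apply, add_zero]
    · rw [fromBlocks_apply₂₂, fromBlocks_apply₂₂, ← h.s1 x y, ← fromBlocks_one, fromBlocks_apply₂₂,
        Matrix.neg_apply, neg_sq]
  · rintro (x | x) (y | y)
    · rw [fromBlocks_apply₁₁, fromBlocks_apply₁₁, fromBlocks_apply₁₁, ← h.s2 x y, Matrix.zero_apply]
      ring
    · rw [fromBlocks_apply₁₂, fromBlocks_apply₁₂, fromBlocks_apply₁₂, ← h.s5 x y, Matrix.zero_apply,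
        Matrix.add_apply]
      ring
    · rw [fromBlocks_apply₂₁, fromBlocks_apply₂₁, fromBlocks_apply₂₁, ← h.s6 x y, Matrix.zero_apply,
        Matrix.sub_apply]
      ring
    · rw [fromBlocks_apply₂₂, fromBlocks_apply₂₂, fromBlocks_apply₂₂, ← h.s2 x y, Matrix.zero_apply,
        Matrix.neg_apply]
      ring

end Pool.Agent.Lib.MP_be2ccc_co.SH
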