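import Mathlib
import Pool.Agent.Lib.MP_be2ccc_co.SH.Defs

/-!
# SH-RSt: the structure `RS` exists in every order `2^i`, for every weight `c < 2^i` of `e`

Base (type `Unit`): `a = 0`, `G = 1`, `e = d = 0`.
Steps: `fromBlocks` computations only (`fromBlocks_multiply`, `fromBlocks_transpose`,
`fromBlocks_neg`, `fromBlocks_one`, `smul_one_blocks` of `Weigh.lean`, then the fields of `h`).
E.g. `a' * a' = fromBlocks (a a - G G) (a G + G a) (-(G a) - a G) (a a - G G)`.
For the support fields do cases `inl/inr`; note `e x x = 0` since `eᵀ = -e`, so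
`(e x y + 1 x y)^2 = e x y^2 + 1 x y`.
`rs_exists` by induction on `i`: `c = 2 c' + 1` uses `rs_stepE`, `c = 2 c'` uses `rs_stepD`.
-/

set_option autoImplicit false

namespace Pool.Agent.Lib.MP_be2ccc_co.SH

open Matrix

theorem rs_base : RS (ι := Unit) 1 0 0 0 1 0 0 := by
  constructor <;> simp

private lemma skew_diag {ι : Type} [DecidableEq ι] {e : Matrix ι ι ℤ}
    (h : eᵀ = -e) (x : ι) : e x x = 0 := by
  have := congrFun (congrFun h x) x
  simp only [transpose_apply, neg_apply] at this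
  omega

private lemma skew_mul_one {ι : Type} [DecidableEq ι] {e : Matrix ι ι ℤ}
    (h : eᵀ = -e) (x y : ι) : e x y * (1 : Matrix ι ι ℤ) x y = 0 := by
  by_cases hxy : x = y
  · subst hxy; rw [skew_diag h]; simp
  · rw [one_apply_ne hxy]; simp

private lemma one_sq {ι : Type} [DecidableEq ι] (x y : ι) :
    (1 : Matrix ι ι ℤ) x y * (1 : Matrix ι ι ℤ) x y = (1 : Matrix ι ι ℤ) x y := by
  by_cases hxy : x = y
  · subst hxy; simp
  · rw [one_apply_ne hxy]; simp

theorem rs_stepE {ι : Type} [Fintype ι] [DecidableEq ι] {n c μ : ℤ} {a G e d : Matrix ι ι ℤ}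
    (h : RS n c μ a G e d) :
    RS (2 * n) (2 * c + 1) (2 * μ) (fromBlocks a G (-G) a) (fromBlocks G G G (-G))
      (fromBlocks e (e + 1) (e - 1) (-e)) (fromBlocks d d d (-d)) := by
  constructor
  case s1 =>
    rintro (x | x) (y | y)
    · have := h.s1 x y
      simpa [one_apply] using this
    · simpa [one_apply] using h.s2 x y
    · simpa [one_apply] using h.s2 x y
    · have := h.s1 x y
      simpa [one_apply] using this
  case s2 =>
    rintro (x | x) (y | y) <;> simpa using h.s2 x y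
  case s3 =>
    rintro (x | x) (y | y)
    · have := h.s3 x y
      simpa [one_apply] using this
    · have h1 := h.s3 x y
      have h2 := skew_mul_one h.et x y
      have h3 := one_sq x y
      have h4 : (1 : Matrix (ι ⊕ ι) (ι ⊕ ι) ℤ) (Sum.inl x) (Sum.inr y) = 0 := by simp
      simp only [fromBlocks_apply₁₂, h4, Matrix.add_apply]
      linear_combination h1 + 2 * h2 + h3
    · have h1 := h.s3 x y
      have h2 := skew_mul_one h.et x y
      have h3 := one_sq x y
      have h4 : (1 : Matrix (ι ⊕ ι) (ι ⊕ ι) ℤ) (Sum.inr x) (Sum.inl y) = 0 := by simp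
      simp only [fromBlocks_apply₂₁, h4, Matrix.sub_apply]
      linear_combination h1 - 2 * h2 + h3
    · have := h.s3 x y
      simpa [one_apply] using this
  all_goals
    simp only [fromBlocks_multiply, fromBlocks_transpose, fromBlocks_neg, smul_one_blocks,
      fromBlocks_inj, transpose_neg, transpose_add, transpose_sub, transpose_one,
      h.at_, h.Gt, h.et, h.dt, Matrix.mul_add, Matrix.add_mul, Matrix.mul_sub, Matrix.sub_mul,
      Matrix.mul_neg, Matrix.neg_mul, Matrix.mul_one, Matrix.one_mul, neg_neg,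
      h.aa, h.GG, h.ee, h.dd, h.aG, h.ea, h.da, h.eG, h.dG, h.ed]
    try (refine ⟨?_, ?_, ?_, ?_⟩ <;> first | trivial | module)

theorem rs_stepD {ι : Type} [Fintype ι] [DecidableEq ι] {n c μ : ℤ} {a G e d : Matrix ι ι ℤ}
    (h : RS n c μ a G e d) :
    RS (2 * n) (2 * c) (2 * μ + 1) (fromBlocks a G (-G) a) (fromBlocks G G G (-G))
      (fromBlocks e e e (-e)) (fromBlocks d (d + 1) (d - 1) (-d)) := by
  have hed : d * e = -(e * d) := by rw [h.ed, neg_neg]
  have h' : RS n μ c a G d e :=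
    { at_ := h.at_, Gt := h.Gt, et := h.dt, dt := h.et, aa := h.aa, GG := h.GG, ee := h.dd,
      dd := h.ee, aG := h.aG, ea := h.da, da := h.ea, eG := h.dG, dG := h.eG, ed := hed,
      s1 := h.s1, s2 := h.s2, s3 := fun x y => by rw [add_comm (d x y ^ 2)]; exact h.s3 x y }
  have k := rs_stepE h'
  have hed' := k.ed
  exact
    { at_ := k.at_, Gt := k.Gt, et := k.dt, dt := k.et, aa := k.aa, GG := k.GG, ee := k.dd,
      dd := k.ee, aG := k.aG, ea := k.da, da := k.ea, eG := k.dG, dG := k.eG,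
      ed := by rw [hed', neg_neg]
      s1 := k.s1, s2 := k.s2, s3 := fun x y => by rw [add_comm (fromBlocks e e e (-e) x y ^ 2)]; exact k.s3 x y }

theorem rs_exists (i c : ℕ) (hc : c < 2 ^ i) :
    ∃ (ι : Type) (_ : Fintype ι) (_ : DecidableEq ι) (a G e d : Matrix ι ι ℤ),
      Fintype.card ι = 2 ^ i ∧ RS (2 ^ i : ℤ) (c : ℤ) (2 ^ i - 1 - c : ℤ) a G e d := by
  induction i generalizing c with
  | zero =>
    have h0 : c = 0 := by simpa using hc
    subst h0
    exact ⟨Unit, inferInstance, inferInstance, 0, 1, 0, 0, by simp, by simpa using rs_base⟩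
  | succ i ih =>
    rcases Nat.even_or_odd' c with ⟨b, hb | hb⟩
    · obtain ⟨ι, hf, hd, a, G, e, d, hcard, hRS⟩ := ih b (by rw [pow_succ] at hc; omega)
      have k := rs_stepD hRS
      have e1 : (2 : ℤ) ^ (i + 1) = 2 * 2 ^ i := by ring
      have e2 : (c : ℤ) = 2 * (b : ℤ) := by rw [hb]; push_cast; ring
      have e3 : (2 : ℤ) * 2 ^ i - 1 - 2 * (b : ℤ) = 2 * (2 ^ i - 1 - (b : ℤ)) + 1 := by ring
      rw [← e3, ← e2, ← e1] at k
      exact ⟨ι ⊕ ι, inferInstance, inferInstance, _, _, _, _,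
        by rw [Fintype.card_sum, hcard, pow_succ]; ring, k⟩
    · obtain ⟨ι, hf, hd, a, G, e, d, hcard, hRS⟩ := ih b (by rw [pow_succ] at hc; omega)
      have k := rs_stepE hRS
      have e1 : (2 : ℤ) ^ (i + 1) = 2 * 2 ^ i := by ring
      have e2 : (c : ℤ) = 2 * (b : ℤ) + 1 := by rw [hb]; push_cast; ring
      have e3 : (2 : ℤ) * 2 ^ i - 1 - (2 * (b : ℤ) + 1) = 2 * (2 ^ i - 1 - (b : ℤ)) := by ring
      rw [← e3, ← e2, ← e1] at k
      exact ⟨ι ⊕ ι, inferInstance, inferInstance, _, _, _, _,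
        by rw [Fintype.card_sum, hcard, pow_succ]; ring, k⟩

end Pool.Agent.Lib.MP_be2ccc_co.SH
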