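import Mathlib
import Pool.Agent.Lib.MP_be2ccc_co.SH.RSt
import Pool.Agent.Lib.MP_be2ccc_co.SH.HSt
import Pool.Agent.Lib.MP_be2ccc_co.SH.MixA
import Pool.Agent.Lib.MP_be2ccc_co.SH.MixB

/-!
# SH-Frame: frames `FS` of order `2^(i+h+1)` (assembly of SH-RSt, SH-HSt, SH-MixA, SH-MixB)
-/

set_option autoImplicit false

namespace Pool.Agent.Lib.MP_be2ccc_co.SH

open Matrix

theorem fs_exists (i h c l : ℕ) (hc : c < 2 ^ i) (hl : l < 2 ^ h) :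
    ∃ (ι : Type) (_ : Fintype ι) (_ : DecidableEq ι) (a w X Y : Matrix ι ι ℤ),
      Fintype.card ι = 2 ^ (i + h + 1) ∧
      FS (2 ^ (i + h + 1) : ℤ) ((2 ^ i - c) * 2 ^ h : ℤ) (2 ^ i * l : ℤ) a w X Y := by
  obtain ⟨ι, hι, dι, a₁, G, e, d, hc1, h1⟩ := rs_exists i c hc
  obtain ⟨κ, hκ, dκ, a₂, Y₂, w₂, b, N, f, hc2, h2⟩ := hs_exists h l hl
  have hM := mixA h1 h2
  refine ⟨(ι × κ) ⊕ (ι × κ), inferInstance, inferInstance, _, _, _, _, ?_,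
    mixB hM ?_ ?_ ?_ ?_⟩
  · rw [Fintype.card_sum, Fintype.card_prod, hc1, hc2]
    ring
  · ring
  · ring
  · ring
  · ring

end Pool.Agent.Lib.MP_be2ccc_co.SH
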