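import Mathlib

/-!
# SH-Num3: the equation `(q + 1) k₁ + (q - 3) k₂ = 2^(2i+1)`

Let `q = 4u - 1`. It suffices: `u κ + (u - 1) l = 2^(i-1)`. For `u = 1` take `κ = 2^(i-1)`, `l = 0`.
For `u ≥ 2` take `j` with `u^2 ≤ 2^j`, `i = j + 1`, `κ ∈ [1, u - 1]` with `κ ≡ 2^j (mod u - 1)`
and `l = (2^j - u κ)/(u - 1)` (exact; `u κ ≡ κ ≡ 2^j`, `u κ ≤ u (u - 1) ≤ 2^j`).
-/

set_option autoImplicit false

namespace Pool.Agent.Lib.MP_be2ccc_co.SH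

private lemma num3_core (m : ℕ) (hm : 1 ≤ m) :
    ∃ j κ l : ℕ, 1 ≤ κ ∧ κ ≤ 2 ^ j ∧ l ≤ 2 ^ j ∧ (m + 1) * κ + m * l = 2 ^ j := by
  have hlt : m + 1 < 2 ^ (m + 1) := Nat.lt_two_pow_self
  have hsq : (m + 1) * (m + 1) ≤ 2 ^ ((m + 1) + (m + 1)) := by
    rw [pow_add]; exact Nat.mul_le_mul hlt.le hlt.le
  generalize (m + 1) + (m + 1) = j at hsq
  obtain ⟨N, hN⟩ : ∃ N, 2 ^ j = N + 1 := ⟨2 ^ j - 1, by have := Nat.one_le_two_pow (n := j); omega⟩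
  have hdiv := Nat.div_add_mod N m
  have hmod := Nat.mod_lt N (show 0 < m by omega)
  set t := N / m with ht
  set r := N % m with hr
  have htgt : m < t := by
    by_contra hcon
    push Not at hcon
    have : m * t ≤ m * m := Nat.mul_le_mul_left m hcon
    nlinarith
  have hmt : t ≤ m * t := Nat.le_mul_of_pos_left t (by omega)
  refine ⟨j, r + 1, t - (r + 1), by omega, by omega, by omega, ?_⟩
  obtain ⟨s, hs⟩ : ∃ s, t = (r + 1) + s := ⟨t - (r + 1), by omega⟩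
  rw [hs, Nat.add_sub_cancel_left, hN, ← hdiv, hs]
  ring

theorem num3 (q : ℕ) (h3 : q % 4 = 3) :
    ∃ i κ l : ℕ, 1 ≤ i ∧ 1 ≤ κ ∧ κ ≤ 2 ^ i ∧ l < 2 ^ i ∧
      ((q : ℤ) + 1) * (κ * 2 ^ i) + ((q : ℤ) - 3) * (2 ^ i * l) = 2 ^ (i + i + 1) := by
  obtain ⟨m, hm⟩ : ∃ m : ℕ, q = 4 * m + 3 := ⟨q / 4, by omega⟩
  subst hm
  rcases Nat.eq_zero_or_pos m with h0 | hpos
  · subst h0
    exact ⟨1, 1, 0, by norm_num, by norm_num, by norm_num, by norm_num, by norm_num⟩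
  · obtain ⟨j, κ, l, h1, h2, h4, h5⟩ := num3_core m hpos
    refine ⟨j + 1, κ, l, by omega, h1, ?_, ?_, ?_⟩
    · rw [pow_succ]; omega
    · have := Nat.one_le_two_pow (n := j)
      rw [pow_succ]; omega
    · have h6 : ((m : ℤ) + 1) * κ + m * l = 2 ^ j := by exact_mod_cast h5
      have e1 : (2 : ℤ) ^ (j + 1 + (j + 1) + 1) = 2 ^ (j + 1) * 4 * 2 ^ j := by ring
      rw [e1, ← h6]
      push_cast
      ring

end Pool.Agent.Lib.MP_be2ccc_co.SH
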