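import Mathlib
import Pool.Agent.Lib.MP_be2ccc_co.SH.Defs
import Pool.Agent.Lib.MP_be2ccc_co.NF.Conf

/-!
# SH-Paley3: the skew core over the field of `q ≡ 3 (mod 4)` elements

`F = GaloisField p f` as in `NF.Conf.paley_conf_pow`; `β x y = χ(y - x)` with
`χ = quadraticChar F`, `R x y = if x + y = 0 then 1 else 0`. `χ(-1) = -1` since `q % 4 = 3`
(`quadraticChar_neg_one`, `ZMod.χ₄`). `β β = J - q`: `∑ y, χ(y - x) χ(z - y) = -∑ y χ(y - x) χ(y - z)`,
use `NF.chF_shift` for `x ≠ z`. Row sums: `quadraticChar_sum_zero`.
`β R x z = β x (-z)`, `R β x z = β (-x) z`.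
-/

set_option autoImplicit false

namespace Pool.Agent.Lib.MP_be2ccc_co.SH

open Matrix

private lemma chi_neg {F : Type} [Field F] [Fintype F] [DecidableEq F]
    (h1 : quadraticChar F (-1) = -1) (t : F) : quadraticChar F (-t) = -quadraticChar F t := by
  have : -t = (-1) * t := by ring
  rw [this, map_mul, h1]
  ring

private theorem core3_field (F : Type) [Field F] [Fintype F] [DecidableEq F]
    (hF : ringChar F ≠ 2) (h1 : quadraticChar F (-1) = -1) :
    Core3 (Fintype.card F : ℤ) (Matrix.of fun x y : F => quadraticChar F (y - x))
      (Matrix.of fun x y : F => if x + y = 0 then (1 : ℤ) else 0) where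
  βt := by
    ext x y
    simp only [transpose_apply, Matrix.neg_apply, Matrix.of_apply]
    rw [← chi_neg h1]
    congr 1
    ring
  Rt := by
    ext x y
    simp only [transpose_apply, Matrix.of_apply]
    rw [add_comm]
  RR := by
    ext x z
    rw [Matrix.mul_apply]
    simp only [Matrix.of_apply, Matrix.one_apply]
    rw [Finset.sum_eq_single (-x)]
    · rw [if_pos (by ring), one_mul]
      by_cases hxz : x = z
      · subst hxz
        rw [if_pos (by ring), if_pos rfl]
      · rw [if_neg, if_neg hxz]
        intro h
        exact hxz (by linear_combination -h)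
    · intro y _ hy
      rw [if_neg, zero_mul]
      intro h
      exact hy (by linear_combination h)
    · intro h
      exact absurd (Finset.mem_univ _) h
  βR := by
    ext x z
    rw [Matrix.neg_apply, Matrix.mul_apply, Matrix.mul_apply]
    simp only [Matrix.of_apply]
    rw [Finset.sum_eq_single (-z), Finset.sum_eq_single (-x)]
    · rw [if_pos (by ring), if_pos (by ring), one_mul, mul_one, ← chi_neg h1]
      congr 1
      ring
    · intro y _ hy
      rw [if_neg, zero_mul]
      intro h
      exact hy (by linear_combination h)
    · intro h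
      exact absurd (Finset.mem_univ _) h
    · intro y _ hy
      rw [if_neg, mul_zero]
      intro h
      exact hy (by linear_combination h)
    · intro h
      exact absurd (Finset.mem_univ _) h
  ββ := by
    ext x z
    rw [Matrix.mul_apply]
    simp only [Matrix.of_apply, Matrix.sub_apply, Matrix.smul_apply, Matrix.one_apply,
      smul_eq_mul]
    by_cases hxz : x = z
    · subst hxz
      rw [if_pos rfl, mul_one]
      have h2 : ∀ y : F, quadraticChar F (y - x) * quadraticChar F (x - y) =
          (if y = x then 1 else 0) - 1 := by
        intro y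
        by_cases hy : y = x
        · subst hy; simp
        · have h3 := quadraticChar_sq_one (F := F) (sub_ne_zero.mpr hy)
          rw [sq] at h3
          have h4 : x - y = -(y - x) := by ring
          rw [h4, chi_neg h1, if_neg hy, mul_neg, h3]
          ring
      rw [Finset.sum_congr rfl fun y _ => h2 y, Finset.sum_sub_distrib]
      simp
    · rw [if_neg hxz, mul_zero, sub_zero]
      have h2 := NF.chF_shift F hF (x - z) (sub_ne_zero.mpr hxz)
      have h3 : ∑ y : F, quadraticChar F (y - x) * quadraticChar F (z - y) =
          -∑ t : F, quadraticChar F t * quadraticChar F (t + (x - z)) := by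
        rw [← Finset.sum_neg_distrib]
        refine Fintype.sum_equiv (Equiv.subRight x) _ _ ?_
        intro y
        simp only [Equiv.subRight_apply]
        rw [← mul_neg, ← chi_neg h1]
        congr 2
        ring
      rw [h3, h2]
      norm_num
  βJ := by
    ext x z
    rw [Matrix.mul_apply]
    simp only [Matrix.of_apply, mul_one, Matrix.zero_apply]
    rw [← quadraticChar_sum_zero hF]
    exact Fintype.sum_equiv (Equiv.subRight x) _ _ fun y => rfl
  Jβ := by
    ext x z
    rw [Matrix.mul_apply]
    simp only [Matrix.of_apply, one_mul, Matrix.zero_apply]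
    rw [← quadraticChar_sum_zero hF]
    exact Fintype.sum_equiv (Equiv.subLeft z) _ _ fun y => rfl
  JJ := by
    ext x z
    rw [Matrix.mul_apply]
    simp
  JR := by
    ext x z
    rw [Matrix.mul_apply]
    simp only [Matrix.of_apply, one_mul]
    rw [Finset.sum_eq_single (-z)]
    · rw [if_pos (by ring)]
    · intro y _ hy
      rw [if_neg]
      intro h
      exact hy (by linear_combination h)
    · intro h
      exact absurd (Finset.mem_univ _) h
  RJ := by
    ext x z
    rw [Matrix.mul_apply]
    simp only [Matrix.of_apply, mul_one]
    rw [Finset.sum_eq_single (-x)]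
    · rw [if_pos (by ring)]
    · intro y _ hy
      rw [if_neg]
      intro h
      exact hy (by linear_combination h)
    · intro h
      exact absurd (Finset.mem_univ _) h
  s1 := by
    intro x y
    simp only [Matrix.of_apply, Matrix.one_apply]
    by_cases hxy : x = y
    · subst hxy; simp
    · rw [if_neg hxy, quadraticChar_sq_one (sub_ne_zero.mpr (Ne.symm hxy)), add_zero]
  s2 := by
    intro x y
    simp only [Matrix.of_apply]
    split_ifs
    · right; rfl
    · left; rfl

theorem core3_exists (q : ℕ) (hq : IsPrimePow q) (h3 : q % 4 = 3) :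
    ∃ (κ : Type) (_ : Fintype κ) (_ : DecidableEq κ) (β R : Matrix κ κ ℤ),
      Fintype.card κ = q ∧ Core3 (q : ℤ) β R := by
  obtain ⟨p, f, hp, hf, rfl⟩ := hq
  have hp' : p.Prime := hp.nat_prime
  haveI : Fact p.Prime := ⟨hp'⟩
  haveI iF : Fintype (GaloisField p f) := Fintype.ofFinite _
  have hcard : Fintype.card (GaloisField p f) = p ^ f := by
    rw [← Nat.card_eq_fintype_card, GaloisField.card p f hf.ne']
  have hchar : ringChar (GaloisField p f) ≠ 2 := by
    rw [ringChar.eq (GaloisField p f) p]
    rintro rfl
    rcases f with _ | f
    · omega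
    · rw [pow_succ] at h3; omega
  classical
  have hneg : quadraticChar (GaloisField p f) (-1) = -1 := by
    rw [quadraticChar_neg_one hchar, hcard, ZMod.χ₄_nat_three_mod_four h3]
  have hc := core3_field (GaloisField p f) hchar hneg
  rw [hcard] at hc
  exact ⟨GaloisField p f, iF, inferInstance, _, _, hcard, hc⟩

end Pool.Agent.Lib.MP_be2ccc_co.SH
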