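import Mathlib
import Pool.Agent.Lib.MP_be2ccc_co.SH.Frame
import Pool.Agent.Lib.MP_be2ccc_co.SH.Fin3
import Pool.Agent.Lib.MP_be2ccc_co.SH.Paley3
import Pool.Agent.Lib.MP_be2ccc_co.SH.Num3

/-!
# SH-Q3: assembly for `q ≡ 3 (mod 4)`: `num3`, `fs_exists i i (2^i - κ) l`, `core3_exists`, `fin3`
-/

set_option autoImplicit false

namespace Pool.Agent.Lib.MP_be2ccc_co.SH

theorem q3 (q : ℕ) (hq : IsPrimePow q) (h3 : q % 4 = 3) :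
    ∃ T : ℕ, 2 ≤ T ∧ HasW (2 ^ T * q) (2 ^ T * q - 1) := by
  obtain ⟨κ, hκ1, hκ2, β, R, hcard, hC⟩ := core3_exists q hq h3
  obtain ⟨i, k, l, hi, hk1, hk2, hl, hnum⟩ := num3 q h3
  obtain ⟨ι, hι1, hι2, a, w, X, Y, hcι, hF⟩ := fs_exists i i (2 ^ i - k) l (by omega) hl
  have hc : ((2 : ℤ) ^ i - ((2 ^ i - k : ℕ) : ℤ)) = k := by
    push_cast [Nat.cast_sub hk2]
    ring
  rw [hc] at hF
  obtain ⟨S, hS1, hS2⟩ := fin3 hF hC hnum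
  refine ⟨i + i + 1, by omega, HasWI.hasW (ι := ι × κ)
    (by rw [Fintype.card_prod, hcι, hcard]) ?_⟩
  have hpos : 1 ≤ 2 ^ (i + i + 1) * q := Nat.mul_pos (by positivity) (by omega)
  refine ⟨S, hS1, ?_⟩
  rw [hS2]
  congr 1
  push_cast [Nat.cast_sub hpos]
  ring

end Pool.Agent.Lib.MP_be2ccc_co.SH
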