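import Mathlib
import Pool.Agent.Lib.MP_be2ccc_co.SH.Defs

/-!
# SH-DCh: the double chain

Base (type `Unit`): `L = R = 0`, `N = 1`. Step with classes `α`, `β`:
`L' i = fromBlocks (L i) (δ N) (-δ N) (L i)`, `δ = if i = α then 1 else 0`,
`R' i = fromBlocks (R i) (R i + δ') (R i - δ') (-R i)`, `δ' = if i = β then 1 else 0`,
`N' = fromBlocks N N N (-N)`. Only `fromBlocks` computations (cases on `i = α`, `j = α`, ...).
Supports: `L i x x = 0`, `R i x x = 0`.
`dc_exists` by induction on `s`: apply the induction hypothesis to `α` and `fun k => β (k + 1)` and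
the step with classes `α s`, `β 0`
(`∑ k < s+1, 2^k [β k = i] = [β 0 = i] + 2 ∑ k < s, 2^k [β (k+1) = i]`, `Finset.sum_range_succ'`).
`od_exists`: from `dc_exists`, `A i = fromBlocks (L i) (R i + δ) (R i - δ) (-L i)`,
`δ = if i = ε then 1 else 0`.
-/

set_option autoImplicit false
set_option linter.unusedSimpArgs false

namespace Pool.Agent.Lib.MP_be2ccc_co.SH

open Matrix

private lemma negneg_eq {ι : Type} {A : Matrix ι ι ℤ} {a : ℤ} {x : ι} (hA : Aᵀ = -A) (_h : a = 0) :
    A x x = 0 := by
  have := congrFun (congrFun hA x) x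
  simp only [Matrix.transpose_apply, Matrix.neg_apply] at this
  omega

private lemma diag0 {ι : Type} {A : Matrix ι ι ℤ} (hA : Aᵀ = -A) (x : ι) :
    A x x = 0 := negneg_eq (a := 0) hA rfl

private lemma iteT {ι : Type} (p : Prop) [Decidable p] (N : Matrix ι ι ℤ) (hN : Nᵀ = N) :
    (if p then N else 0)ᵀ = if p then N else 0 := by
  split_ifs
  · exact hN
  · simp

private lemma iteNT {ι : Type} (p : Prop) [Decidable p] (N : Matrix ι ι ℤ) (hN : Nᵀ = N) :
    (if p then -N else 0)ᵀ = if p then -N else 0 := by
  split_ifs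
  · simp [hN]
  · simp

private lemma sumsq_right {ι : Type} [Fintype ι] [DecidableEq ι] (R : Fin 4 → Matrix ι ι ℤ)
    (hR : ∀ i, (R i)ᵀ = -R i)
    (s2 : ∀ x y, (∑ i, R i x y ^ 2) + (1 : Matrix ι ι ℤ) x y = 1) (β : Fin 4) (x y : ι) (ε : ℤ)
    (hε : ε ^ 2 = 1) :
    ∑ i, (R i x y + ε * (if i = β then (1 : Matrix ι ι ℤ) else 0) x y) ^ 2 = 1 := by
  have h1 : ∀ i, (R i x y + ε * (if i = β then (1 : Matrix ι ι ℤ) else 0) x y) ^ 2 =
      R i x y ^ 2 + if i = β then (1 : Matrix ι ι ℤ) x y else 0 := by
    intro i
    by_cases hxy : x = y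
    · subst hxy
      have := diag0 (hR i) x
      split_ifs <;> simp [this, hε]
    · split_ifs <;> simp [hxy]
  rw [Finset.sum_congr rfl fun i _ => h1 i, Finset.sum_add_distrib, Finset.sum_ite_eq' Finset.univ β]
  simpa using s2 x y

theorem dc_step {ι : Type} [Fintype ι] [DecidableEq ι] {n : ℤ} {l r : Fin 4 → ℤ}
    {L R : Fin 4 → Matrix ι ι ℤ} {N : Matrix ι ι ℤ} (h : DC n l r L R N) (α β : Fin 4) :
    DC (2 * n) (fun i => l i + if i = α then n else 0) (fun i => 2 * r i + if i = β then 1 else 0)
      (fun i => fromBlocks (L i) (if i = α then N else 0) (if i = α then -N else 0) (L i))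
      (fun i => fromBlocks (R i) (R i + if i = β then 1 else 0) (R i - if i = β then 1 else 0)
        (-R i))
      (fromBlocks N N N (-N)) := by
  have one : (1 : Matrix (ι ⊕ ι) (ι ⊕ ι) ℤ) = fromBlocks 1 0 0 1 := Matrix.fromBlocks_one.symm
  have hLN : ∀ i, L i * N + N * L i = 0 := fun i => by rw [h.LN i]; simp
  have hRN : ∀ i, R i * N + N * R i = 0 := fun i => by rw [h.RN i]; simp
  constructor
  · intro i
    simp only [fromBlocks_transpose, fromBlocks_neg, iteT _ _ h.Nt, iteNT _ _ h.Nt, h.Lt]
    congr 1 <;> split_ifs <;> simp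
  · intro i
    simp only [fromBlocks_transpose, fromBlocks_neg, h.Rt, transpose_add, transpose_sub,
      transpose_neg, iteT (i = β) (1 : Matrix ι ι ℤ) transpose_one]
    congr 1 <;> abel
  · simp only [fromBlocks_transpose, h.Nt, transpose_neg]
  · intro i
    rw [one, fromBlocks_multiply, fromBlocks_smul, fromBlocks_neg]
    congr 1
    · split_ifs
      · rw [h.LL i, mul_neg, h.NN]; module
      · rw [h.LL i]; simp
    · split_ifs
      · rw [h.LN i]; simp
      · simp
    · split_ifs
      · rw [neg_mul, mul_neg, h.LN i]; simp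
      · simp
    · split_ifs
      · rw [h.LL i, neg_mul, h.NN]; module
      · rw [h.LL i]; simp
  · intro i
    rw [one, fromBlocks_multiply, fromBlocks_smul, fromBlocks_neg]
    congr 1
    · split_ifs
      · rw [add_mul, mul_sub, h.RR i]
        simp only [one_mul, mul_one]
        module
      · rw [add_zero, sub_zero, h.RR i]; module
    · split_ifs
      · simp only [mul_add, add_mul, one_mul, mul_one, mul_neg, smul_zero, neg_zero]
        abel
      · simp
    · split_ifs
      · simp only [sub_mul, mul_sub, one_mul, mul_one, neg_mul, smul_zero, neg_zero]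
        abel
      · simp
    · split_ifs
      · rw [sub_mul, mul_add, neg_mul_neg, h.RR i]
        simp only [one_mul, mul_one]
        module
      · rw [add_zero, sub_zero, neg_mul_neg, h.RR i]; module
  · rw [one, fromBlocks_multiply, fromBlocks_smul, h.NN]
    congr 1
    · module
    · simp [h.NN]
    · simp [h.NN]
    · rw [neg_mul_neg, h.NN]; module
  · intro i j hij
    rw [fromBlocks_multiply, fromBlocks_multiply, fromBlocks_neg]
    by_cases hi : i = α
    · have hj : j ≠ α := fun hj => hij (hi.trans hj.symm)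
      simp only [if_pos hi, if_neg hj, mul_zero, zero_mul, add_zero, zero_add, h.LLij i j hij,
        neg_mul, mul_neg, h.LN j, neg_neg, neg_zero]
    · simp only [if_neg hi]
      by_cases hj : j = α
      · simp only [if_pos hj, mul_zero, zero_mul, add_zero, zero_add, h.LLij i j hij,
          neg_mul, mul_neg, h.LN i, neg_neg, neg_zero]
      · simp only [if_neg hj, mul_zero, zero_mul, add_zero, zero_add, h.LLij i j hij, neg_zero]
  · intro i j hij
    rw [fromBlocks_multiply, fromBlocks_multiply, fromBlocks_neg]
    have e := h.RRij i j hij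
    have d : (if i = β then (1 : Matrix ι ι ℤ) else 0) * (if j = β then (1 : Matrix ι ι ℤ) else 0)
        = 0 := by
      split_ifs with h1 h2
      · exact absurd (h1.trans h2.symm) hij
      all_goals simp
    have d' : (if j = β then (1 : Matrix ι ι ℤ) else 0) * (if i = β then (1 : Matrix ι ι ℤ) else 0)
        = 0 := by
      split_ifs with h1 h2
      · exact absurd (h2.trans h1.symm) hij
      all_goals simp
    have c1 : ∀ (X : Matrix ι ι ℤ) (k : Fin 4), X * (if k = β then (1 : Matrix ι ι ℤ) else 0)
        = (if k = β then (1 : Matrix ι ι ℤ) else 0) * X := by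
      intro X k
      split_ifs <;> simp
    congr 1
    · simp only [mul_add, add_mul, mul_sub, sub_mul, e, d, d', c1]; abel
    · simp only [mul_add, add_mul, mul_sub, sub_mul, mul_neg, neg_mul, e, d, d', c1]; abel
    · simp only [mul_add, add_mul, mul_sub, sub_mul, mul_neg, neg_mul, e, d, d', c1]; abel
    · simp only [mul_add, add_mul, mul_sub, sub_mul, mul_neg, neg_mul, e, d, d', c1]; abel
  · intro i j
    rw [fromBlocks_multiply, fromBlocks_multiply]
    have e := h.LR i j
    have c1 : ∀ (X : Matrix ι ι ℤ), X * (if j = β then (1 : Matrix ι ι ℤ) else 0)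
        = (if j = β then (1 : Matrix ι ι ℤ) else 0) * X := by
      intro X
      split_ifs <;> simp
    have hRN' := h.RN j
    by_cases hi : i = α
    · simp only [if_pos hi]
      congr 1
      · simp only [mul_add, add_mul, mul_sub, sub_mul, mul_neg, neg_mul, e, c1, hRN']; abel
      · simp only [mul_add, add_mul, mul_sub, sub_mul, mul_neg, neg_mul, e, c1, hRN']; abel
      · simp only [mul_add, add_mul, mul_sub, sub_mul, mul_neg, neg_mul, e, c1, hRN']; abel
      · simp only [mul_add, add_mul, mul_sub, sub_mul, mul_neg, neg_mul, e, c1, hRN']; abel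
    · simp only [if_neg hi]
      congr 1
      · simp only [mul_add, add_mul, mul_sub, sub_mul, mul_neg, neg_mul, e, c1, mul_zero, zero_mul]
        abel
      · simp only [mul_add, add_mul, mul_sub, sub_mul, mul_neg, neg_mul, e, c1, mul_zero, zero_mul]
        abel
      · simp only [mul_add, add_mul, mul_sub, sub_mul, mul_neg, neg_mul, e, c1, mul_zero, zero_mul]
        abel
      · simp only [mul_add, add_mul, mul_sub, sub_mul, mul_neg, neg_mul, e, c1, mul_zero, zero_mul]
        abel
  · intro i
    rw [fromBlocks_multiply, fromBlocks_multiply, fromBlocks_neg]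
    have e := h.LN i
    split_ifs
    · congr 1 <;> simp only [mul_neg, neg_mul, e] <;> abel
    · congr 1 <;> simp only [mul_neg, neg_mul, e, mul_zero, zero_mul] <;> abel
  · intro i
    rw [fromBlocks_multiply, fromBlocks_multiply, fromBlocks_neg]
    have e := h.RN i
    split_ifs
    · congr 1 <;> simp only [mul_add, add_mul, mul_sub, sub_mul, mul_neg, neg_mul, e, mul_one,
        one_mul] <;> abel
    · congr 1 <;> simp only [mul_add, add_mul, mul_sub, sub_mul, mul_neg, neg_mul, e, mul_zero,
        zero_mul] <;> abel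
  · rintro (x | x) (y | y)
    · simpa only [one, fromBlocks_apply₁₁] using h.s1 x y
    · simp only [fromBlocks_apply₁₂, one, Matrix.zero_apply, add_zero]
      rw [Finset.sum_eq_single α]
      · simpa using h.s3 x y
      · intro b _ hb
        simp [hb]
      · simp
    · simp only [fromBlocks_apply₂₁, one, Matrix.zero_apply, add_zero]
      rw [Finset.sum_eq_single α]
      · simpa using h.s3 x y
      · intro b _ hb
        simp [hb]
      · simp
    · simpa only [one, fromBlocks_apply₂₂] using h.s1 x y
  · rintro (x | x) (y | y)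
    · simpa only [one, fromBlocks_apply₁₁] using h.s2 x y
    · simp only [fromBlocks_apply₁₂, one, Matrix.zero_apply, add_zero, Matrix.add_apply]
      simpa using sumsq_right R h.Rt h.s2 β x y 1 (by norm_num)
    · simp only [fromBlocks_apply₂₁, one, Matrix.zero_apply, add_zero, Matrix.sub_apply]
      simpa [sub_eq_add_neg] using sumsq_right R h.Rt h.s2 β x y (-1) (by norm_num)
    · simpa only [one, fromBlocks_apply₂₂, Matrix.neg_apply, neg_sq] using h.s2 x y
  · rintro (x | x) (y | y)
    · simpa using h.s3 x y
    · simpa using h.s3 x y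
    · simpa using h.s3 x y
    · simpa using h.s3 x y

theorem dc_exists (s : ℕ) (α β : ℕ → Fin 4) :
    ∃ (ι : Type) (_ : Fintype ι) (_ : DecidableEq ι) (L R : Fin 4 → Matrix ι ι ℤ)
      (N : Matrix ι ι ℤ), Fintype.card ι = 2 ^ s ∧
      DC (2 ^ s : ℤ) (fun i => ∑ k ∈ Finset.range s, if α k = i then (2 : ℤ) ^ k else 0)
        (fun i => ∑ k ∈ Finset.range s, if β k = i then (2 : ℤ) ^ k else 0) L R N := by
  induction s generalizing β with
  | zero =>
    refine ⟨Unit, inferInstance, inferInstance, fun _ => 0, fun _ => 0, 1, by simp, ?_⟩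
    constructor <;> simp
  | succ s ih =>
    obtain ⟨ι, i1, i2, L, R, N, hc, h⟩ := ih (fun k => β (k + 1))
    refine ⟨ι ⊕ ι, inferInstance, inferInstance,
      (fun i => fromBlocks (L i) (if i = α s then N else 0) (if i = α s then -N else 0) (L i)),
      (fun i => fromBlocks (R i) (R i + if i = β 0 then 1 else 0) (R i - if i = β 0 then 1 else 0)
        (-R i)), fromBlocks N N N (-N), ?_, ?_⟩
    rotate_left
    · have := dc_step h (α s) (β 0)
      have e1 : (fun i => (∑ k ∈ Finset.range s, if α k = i then (2 : ℤ) ^ k else 0) +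
          if i = α s then (2 : ℤ) ^ s else 0) =
          fun i => ∑ k ∈ Finset.range (s + 1), if α k = i then (2 : ℤ) ^ k else 0 := by
        funext i
        rw [Finset.sum_range_succ]
        simp only [eq_comm]
      have e2 : (fun i => 2 * (∑ k ∈ Finset.range s, if β (k + 1) = i then (2 : ℤ) ^ k else 0) +
          if i = β 0 then (1 : ℤ) else 0) =
          fun i => ∑ k ∈ Finset.range (s + 1), if β k = i then (2 : ℤ) ^ k else 0 := by
        funext i
        rw [Finset.sum_range_succ', Finset.mul_sum]
        congr 1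
        · refine Finset.sum_congr rfl fun k _ => ?_
          split_ifs
          · ring
          · ring
        · simp only [eq_comm, pow_zero]
      rw [e1, e2, ← pow_succ'] at this
      exact this
    · rw [Fintype.card_sum, hc]; ring

private theorem od_step {ι : Type} [Fintype ι] [DecidableEq ι] {n : ℤ} {l r : Fin 4 → ℤ}
    {L R : Fin 4 → Matrix ι ι ℤ} {N : Matrix ι ι ℤ} (h : DC n l r L R N) (ε : Fin 4) :
    OD4 (fun i => l i + r i + if ε = i then 1 else 0)
      (fun i => fromBlocks (L i) (R i + if i = ε then 1 else 0) (R i - if i = ε then 1 else 0)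
        (-L i)) := by
  have one : (1 : Matrix (ι ⊕ ι) (ι ⊕ ι) ℤ) = fromBlocks 1 0 0 1 := Matrix.fromBlocks_one.symm
  constructor
  · intro i
    simp only [fromBlocks_transpose, fromBlocks_neg, h.Rt, h.Lt, transpose_add, transpose_sub,
      transpose_neg, iteT (i = ε) (1 : Matrix ι ι ℤ) transpose_one]
    congr 1 <;> abel
  · intro i
    have e := h.LR i i
    have e' : (if ε = i then (1 : ℤ) else 0) = if i = ε then 1 else 0 := by simp only [eq_comm]
    rw [one, fromBlocks_multiply, fromBlocks_smul, fromBlocks_neg, e']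
    congr 1
    · split_ifs
      · rw [add_mul, mul_sub, h.RR i, h.LL i]
        simp only [one_mul, mul_one]
        module
      · rw [add_zero, sub_zero, h.RR i, h.LL i]; module
    · split_ifs
      · simp only [mul_add, add_mul, one_mul, mul_one, mul_neg, smul_zero, neg_zero, e]
        abel
      · simp [e]
    · split_ifs
      · simp only [sub_mul, mul_sub, one_mul, mul_one, neg_mul, smul_zero, neg_zero, e]
        abel
      · simp [e]
    · split_ifs
      · rw [sub_mul, mul_add, neg_mul_neg, h.RR i, h.LL i]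
        simp only [one_mul, mul_one]
        module
      · rw [add_zero, sub_zero, neg_mul_neg, h.RR i, h.LL i]; module
  · intro i j hij
    rw [fromBlocks_multiply, fromBlocks_multiply, fromBlocks_neg]
    have e := h.RRij i j hij
    have e2 := h.LLij i j hij
    have e3 := h.LR i j
    have e4 := h.LR j i
    have d : (if i = ε then (1 : Matrix ι ι ℤ) else 0) * (if j = ε then (1 : Matrix ι ι ℤ) else 0)
        = 0 := by
      split_ifs with h1 h2
      · exact absurd (h1.trans h2.symm) hij
      all_goals simp
    have d' : (if j = ε then (1 : Matrix ι ι ℤ) else 0) * (if i = ε then (1 : Matrix ι ι ℤ) else 0)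
        = 0 := by
      split_ifs with h1 h2
      · exact absurd (h2.trans h1.symm) hij
      all_goals simp
    have c1 : ∀ (X : Matrix ι ι ℤ) (k : Fin 4), X * (if k = ε then (1 : Matrix ι ι ℤ) else 0)
        = (if k = ε then (1 : Matrix ι ι ℤ) else 0) * X := by
      intro X k
      split_ifs <;> simp
    congr 1
    · simp only [mul_add, add_mul, mul_sub, sub_mul, e, e2, d, d', c1]; abel
    · simp only [mul_add, add_mul, mul_sub, sub_mul, mul_neg, neg_mul, e3, e4, d, d', c1]; abel
    · simp only [mul_add, add_mul, mul_sub, sub_mul, mul_neg, neg_mul, e3, e4, d, d', c1]; abel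
    · simp only [mul_add, add_mul, mul_sub, sub_mul, mul_neg, neg_mul, e, e2, d, d', c1]; abel
  · rintro (x | x) (y | y)
    · simpa only [one, fromBlocks_apply₁₁] using h.s1 x y
    · simp only [fromBlocks_apply₁₂, one, Matrix.zero_apply, add_zero, Matrix.add_apply]
      simpa using sumsq_right R h.Rt h.s2 ε x y 1 (by norm_num)
    · simp only [fromBlocks_apply₂₁, one, Matrix.zero_apply, add_zero, Matrix.sub_apply]
      simpa [sub_eq_add_neg] using sumsq_right R h.Rt h.s2 ε x y (-1) (by norm_num)
    · simpa only [one, fromBlocks_apply₂₂, Matrix.neg_apply, neg_sq] using h.s1 x y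

theorem od_exists (s : ℕ) (α β : ℕ → Fin 4) (ε : Fin 4) :
    ∃ (ι : Type) (_ : Fintype ι) (_ : DecidableEq ι) (A : Fin 4 → Matrix ι ι ℤ),
      Fintype.card ι = 2 ^ (s + 1) ∧
      OD4 (fun i => (∑ k ∈ Finset.range s, if α k = i then (2 : ℤ) ^ k else 0) +
        (∑ k ∈ Finset.range s, if β k = i then (2 : ℤ) ^ k else 0) + if ε = i then 1 else 0) A := by
  obtain ⟨ι, i1, i2, L, R, N, hc, h⟩ := dc_exists s α β
  refine ⟨ι ⊕ ι, inferInstance, inferInstance, _, ?_, od_step h ε⟩
  rw [Fintype.card_sum, hc]; ring

end Pool.Agent.Lib.MP_be2ccc_co.SH
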