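import Mathlib
import Pool.Agent.Lib.MP_be2ccc_co.SH.Defs

/-!
# SH-Fin5: four skew matrices and the blocks `Core5` give a `W(n q, n q - 1)`

`S = 1 ⊗ μ + ∑ i, A i ⊗ B i`. `Sᵀ = -S`. `S S = 1 ⊗ μμ + ∑ i (A i A i) ⊗ (B i B i)`: the cross terms
`(1 ⊗ μ)(A i ⊗ B i) + (A i ⊗ B i)(1 ⊗ μ) = A i ⊗ (μ B i + B i μ) = 0`, and for `i ≠ j`
`A i A j ⊗ B i B j + A j A i ⊗ B j B i = 0`. Then use `B0 .. B3` and the equations:
the `Q` coefficient is `2y - 2 k 2 + 2 k 3 = 0`, the `J` coefficient is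
`1 - q k 0 - (q-4) k 1 + k 2 + k 3 = 0`, the constant is `-q - 4 k 1 - (q+1)(k 2 + k 3) = -(nq - 1)`.
Entries: if `x₁ = x₂` in `ι` then all `A i x₁ x₂ = 0` and `S = μ`; otherwise exactly one
`A i x₁ x₂` is `± 1` and `S = ± B i`.
-/

set_option autoImplicit false

namespace Pool.Agent.Lib.MP_be2ccc_co.SH

open Matrix Kronecker

private theorem fin5_tern {z : ℤ} (h : z ^ 2 = 1) : Tern z := by
  have : (z - 1) * (z + 1) = 0 := by linear_combination h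
  rcases mul_eq_zero.mp this with h | h
  · exact Or.inr (Or.inl (by omega))
  · exact Or.inr (Or.inr (by omega))

private theorem fin5_sum {a0 a1 a2 a3 b0 b1 b2 b3 : ℤ}
    (h : a0 ^ 2 + a1 ^ 2 + a2 ^ 2 + a3 ^ 2 = 1) (h0 : b0 ^ 2 = 1) (h1 : b1 ^ 2 = 1)
    (h2 : b2 ^ 2 = 1) (h3 : b3 ^ 2 = 1) :
    (a0 * b0 + a1 * b1 + a2 * b2 + a3 * b3) ^ 2 = 1 := by
  have key : ∀ x y : ℤ, x ^ 2 + y ^ 2 ≤ 1 → x * y = 0 := by
    intro x y hxy
    by_contra hne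
    have hx : x ≠ 0 := fun hx => hne (by rw [hx, zero_mul])
    have hy : y ≠ 0 := fun hy => hne (by rw [hy, mul_zero])
    have hx2 : 0 < x ^ 2 := by positivity
    have hy2 : 0 < y ^ 2 := by positivity
    omega
  have s0 := sq_nonneg a0
  have s1 := sq_nonneg a1
  have s2 := sq_nonneg a2
  have s3 := sq_nonneg a3
  have h01 := key a0 a1 (by omega)
  have h02 := key a0 a2 (by omega)
  have h03 := key a0 a3 (by omega)
  have h12 := key a1 a2 (by omega)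
  have h13 := key a1 a3 (by omega)
  have h23 := key a2 a3 (by omega)
  linear_combination h + a0 ^ 2 * h0 + a1 ^ 2 * h1 + a2 ^ 2 * h2 + a3 ^ 2 * h3
    + 2 * b0 * b1 * h01 + 2 * b0 * b2 * h02 + 2 * b0 * b3 * h03
    + 2 * b1 * b2 * h12 + 2 * b1 * b3 * h13 + 2 * b2 * b3 * h23

private theorem fin5_cross {ι κ : Type} [Fintype ι] [Fintype κ] {A A' : Matrix ι ι ℤ}
    {B B' : Matrix κ κ ℤ} (hA : A * A' = -(A' * A)) (hB : B * B' = B' * B) :
    (A ⊗ₖ B) * (A' ⊗ₖ B') + (A' ⊗ₖ B') * (A ⊗ₖ B) = 0 := by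
  rw [← Matrix.mul_kronecker_mul, ← Matrix.mul_kronecker_mul, hA, hB]
  ext x y
  simp [Matrix.kroneckerMap_apply]

theorem fin5 {ι κ : Type} [Fintype ι] [DecidableEq ι] [Fintype κ] [DecidableEq κ]
    {n q y : ℤ} {k : Fin 4 → ℤ} {A : Fin 4 → Matrix ι ι ℤ} {μ Q : Matrix κ κ ℤ}
    {B : Fin 4 → Matrix κ κ ℤ} (hA : OD4 k A) (hC : Core5 q y μ B Q)
    (h1 : 1 + k 0 + k 1 + k 2 + k 3 = n) (h2 : (q + 1) * k 0 + (q - 3) * k 1 = n)
    (h3 : k 2 - k 3 = y) :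
    ∃ S : Matrix (ι × κ) (ι × κ) ℤ, (∀ x y, Tern (S x y)) ∧
      S * Sᵀ = (n * q - 1) • (1 : Matrix (ι × κ) (ι × κ) ℤ) := by
  classical
  set J : Matrix κ κ ℤ := Matrix.of (fun _ _ => (1 : ℤ)) with hJ
  set M : Matrix (ι × κ) (ι × κ) ℤ := (1 : Matrix ι ι ℤ) ⊗ₖ μ with hM
  set P : Fin 4 → Matrix (ι × κ) (ι × κ) ℤ := fun i => A i ⊗ₖ B i with hP
  have hMt : Mᵀ = -M := by
    rw [hM, ← Matrix.kroneckerMap_transpose, Matrix.transpose_one, hC.μt]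
    ext x y
    simp [Matrix.kroneckerMap_apply]
  have hPt : ∀ i, (P i)ᵀ = -P i := by
    intro i
    rw [hP]
    dsimp only
    rw [← Matrix.kroneckerMap_transpose, hA.At i, hC.Bt i]
    ext x y
    simp [Matrix.kroneckerMap_apply]
  have hMM : M * M = (1 : Matrix ι ι ℤ) ⊗ₖ (μ * μ) := by
    rw [hM, ← Matrix.mul_kronecker_mul, one_mul]
  have hMP : ∀ i, M * P i + P i * M = 0 := by
    intro i
    rw [hM, hP]
    dsimp only
    rw [← Matrix.mul_kronecker_mul, ← Matrix.mul_kronecker_mul, one_mul, mul_one, hC.Bμ i]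
    ext x y
    simp [Matrix.kroneckerMap_apply]
  have hPP : ∀ i, P i * P i = (1 : Matrix ι ι ℤ) ⊗ₖ (-(k i • (B i * B i))) := by
    intro i
    rw [hP]
    dsimp only
    rw [← Matrix.mul_kronecker_mul, hA.AA i]
    ext x y
    simp only [Matrix.kroneckerMap_apply, Matrix.neg_apply, Matrix.smul_apply, smul_eq_mul]
    ring
  have hPij : ∀ i j, i ≠ j → P i * P j + P j * P i = 0 := fun i j hij =>
    fin5_cross (hA.AAij i j hij) (hC.BB i j)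
  set S : Matrix (ι × κ) (ι × κ) ℤ := M + (P 0 + P 1 + P 2 + P 3) with hS
  have hSt : Sᵀ = -S := by
    rw [hS]
    simp only [Matrix.transpose_add, hMt, hPt]
    abel
  have hSS : S * S = M * M + (P 0 * P 0 + P 1 * P 1 + P 2 * P 2 + P 3 * P 3) := by
    have e0 := hMP 0
    have e1 := hMP 1
    have e2 := hMP 2
    have e3 := hMP 3
    have e01 := hPij 0 1 (by decide)
    have e02 := hPij 0 2 (by decide)
    have e03 := hPij 0 3 (by decide)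
    have e12 := hPij 1 2 (by decide)
    have e13 := hPij 1 3 (by decide)
    have e23 := hPij 2 3 (by decide)
    have expand : S * S = M * M + (P 0 * P 0 + P 1 * P 1 + P 2 * P 2 + P 3 * P 3)
        + (M * P 0 + P 0 * M) + (M * P 1 + P 1 * M) + (M * P 2 + P 2 * M) + (M * P 3 + P 3 * M)
        + (P 0 * P 1 + P 1 * P 0) + (P 0 * P 2 + P 2 * P 0) + (P 0 * P 3 + P 3 * P 0)
        + (P 1 * P 2 + P 2 * P 1) + (P 1 * P 3 + P 3 * P 1) + (P 2 * P 3 + P 3 * P 2) := by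
      rw [hS]
      noncomm_ring
    rw [expand, e0, e1, e2, e3, e01, e02, e03, e12, e13, e23]
    simp only [add_zero]
  have hfin : S * S = -((n * q - 1) • (1 : Matrix (ι × κ) (ι × κ) ℤ)) := by
    rw [hSS, hMM, hPP 0, hPP 1, hPP 2, hPP 3, hC.μμ, hC.B0, hC.B1, hC.B2, hC.B3]
    ext ⟨x₁, y₁⟩ ⟨x₂, y₂⟩
    simp only [Matrix.add_apply, Matrix.kroneckerMap_apply, Matrix.sub_apply, Matrix.smul_apply,
      Matrix.neg_apply, smul_eq_mul, ← Matrix.one_kronecker_one (α := ℤ) (m := ι) (n := κ)]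
    rw [← hJ]
    linear_combination (1 : Matrix ι ι ℤ) x₁ x₂ * (J y₁ y₂ * (h1 - h2)
      - (1 : Matrix κ κ ℤ) y₁ y₂ * ((q + 1) * h1 - h2) - 2 * Q y₁ y₂ * h3)
  refine ⟨S, ?_, ?_⟩
  · rintro ⟨x₁, y₁⟩ ⟨x₂, y₂⟩
    have hval : S (x₁, y₁) (x₂, y₂) = (1 : Matrix ι ι ℤ) x₁ x₂ * μ y₁ y₂
        + (A 0 x₁ x₂ * B 0 y₁ y₂ + A 1 x₁ x₂ * B 1 y₁ y₂ + A 2 x₁ x₂ * B 2 y₁ y₂
          + A 3 x₁ x₂ * B 3 y₁ y₂) := by
      rw [hS]
      simp only [Matrix.add_apply, hM, hP, Matrix.kroneckerMap_apply]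
    have hs := hA.s1 x₁ x₂
    rw [Fin.sum_univ_four] at hs
    rw [hval]
    by_cases hx : x₁ = x₂
    · subst hx
      rw [Matrix.one_apply_eq] at hs ⊢
      have s0 := sq_nonneg (A 0 x₁ x₁)
      have s1 := sq_nonneg (A 1 x₁ x₁)
      have s2 := sq_nonneg (A 2 x₁ x₁)
      have s3 := sq_nonneg (A 3 x₁ x₁)
      have z0 : A 0 x₁ x₁ = 0 := pow_eq_zero_iff (two_ne_zero) |>.mp (by omega)
      have z1 : A 1 x₁ x₁ = 0 := pow_eq_zero_iff (two_ne_zero) |>.mp (by omega)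
      have z2 : A 2 x₁ x₁ = 0 := pow_eq_zero_iff (two_ne_zero) |>.mp (by omega)
      have z3 : A 3 x₁ x₁ = 0 := pow_eq_zero_iff (two_ne_zero) |>.mp (by omega)
      rw [z0, z1, z2, z3]
      have hm := hC.s1 y₁ y₂
      have hm2 : μ y₁ y₂ ^ 2 = 0 ∨ μ y₁ y₂ ^ 2 = 1 := by
        by_cases hy : y₁ = y₂
        · subst hy
          rw [Matrix.one_apply_eq] at hm
          left; omega
        · rw [Matrix.one_apply_ne hy] at hm
          right; omega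
      simp only [zero_mul, add_zero, one_mul]
      rcases hm2 with h | h
      · have : μ y₁ y₂ = 0 := pow_eq_zero_iff (two_ne_zero) |>.mp h
        exact Or.inl this
      · exact fin5_tern h
    · rw [Matrix.one_apply_ne hx] at hs ⊢
      rw [zero_mul, zero_add]
      have := fin5_sum (by omega) (hC.s2 0 y₁ y₂) (hC.s2 1 y₁ y₂) (hC.s2 2 y₁ y₂) (hC.s2 3 y₁ y₂)
        (a0 := A 0 x₁ x₂) (a1 := A 1 x₁ x₂) (a2 := A 2 x₁ x₂) (a3 := A 3 x₁ x₂)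
      exact fin5_tern this
  · rw [hSt, Matrix.mul_neg, hfin, neg_neg]

end Pool.Agent.Lib.MP_be2ccc_co.SH
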