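import Mathlib

/-!
# SH-Dig: a power of `2` with the digits `0, p-2, p-1, p`

Let `A` be the set of `δ : ℕ` such that for some `N`, `d`: `∑ k < N, g (d k) 2^k = δ 2^N`, where
`g = ![0, p-2, p-1, p]`. `0 ∈ A` (`N = 0`); if `z ∈ A` and `2 δ = z + g i` then `δ ∈ A` (append the
digit `i` at place `N`). Want `1 ∈ A`. Let `O = {x ≤ p : p - x ∈ A}` (`p` odd). Then `p ∈ O` and
* `x ∈ O`, `x` even, gives `x/2 ∈ O` and `x/2 + 1 ∈ O` (`x ≤ p`);
* `x ∈ O`, `x` odd, gives `(x + p)/2 ∈ O` and `(x + 1)/2 ∈ O`.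
So `O' = O ∩ [1, p-1]` is closed under the injective map `σ` of `[1, p-1]` to itself,
`σ x = x/2` (`x` even), `(x + p)/2` (`x` odd), hence (finite) `σ x ∈ O → x ∈ O` for `x ∈ [1, p-1]`
(`Finset.surj_on_of_inj_on_of_card_le` or `Set.Finite`/iterates). Now `(p+1)/2 ∈ O` (from `p`) is
`σ 1`, so `1 ∈ O`; `σ 2 = 1`, so `2 ∈ O`; if `x ∈ O` is even and `x + 2 ≤ p - 1` then
`x/2 + 1 = σ (x + 2) ∈ O`, so `x + 2 ∈ O`. Hence `p - 1 ∈ O`, i.e. `1 ∈ A`.
-/

set_option autoImplicit false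

namespace Pool.Agent.Lib.MP_be2ccc_co.SH

private def gg (p : ℕ) (i : Fin 4) : ℕ := (![0, p - 2, p - 1, p] i : ℕ)

private def AA (p δ : ℕ) : Prop :=
  ∃ (N : ℕ) (d : ℕ → Fin 4), ∑ k ∈ Finset.range N, gg p (d k) * 2 ^ k = δ * 2 ^ N

private lemma AA_zero (p : ℕ) : AA p 0 := ⟨0, fun _ => 0, by simp⟩

private lemma AA_step (p z δ : ℕ) (i : Fin 4) (hz : AA p z) (h : 2 * δ = z + gg p i) :
    AA p δ := by
  obtain ⟨N, d, hd⟩ := hz
  refine ⟨N + 1, fun k => if k < N then d k else i, ?_⟩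
  rw [Finset.sum_range_succ]
  have h1 : ∑ k ∈ Finset.range N, gg p (if k < N then d k else i) * 2 ^ k
      = ∑ k ∈ Finset.range N, gg p (d k) * 2 ^ k := by
    refine Finset.sum_congr rfl fun k hk => ?_
    rw [if_pos (Finset.mem_range.1 hk)]
  have h2 : gg p ((fun k => if k < N then d k else i) N) = gg p i := by
    simp
  rw [h1, hd, h2, pow_succ]
  have : δ * (2 ^ N * 2) = (2 * δ) * 2 ^ N := by ring
  rw [this, h]
  ring

private def OO (p x : ℕ) : Prop := x ≤ p ∧ AA p (p - x)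

private lemma g0 (p : ℕ) : gg p 0 = 0 := rfl
private lemma g1 (p : ℕ) : gg p 1 = p - 2 := rfl
private lemma g2 (p : ℕ) : gg p 2 = p - 1 := rfl
private lemma g3 (p : ℕ) : gg p 3 = p := rfl

private def sg (p x : ℕ) : ℕ := if x % 2 = 0 then x / 2 else (x + p) / 2

private lemma OO_sg (p x : ℕ) (hp : p % 2 = 1) (h : OO p x) : OO p (sg p x) := by
  obtain ⟨hx, ha⟩ := h
  unfold sg
  split_ifs with he
  · refine ⟨by omega, AA_step p _ _ 3 ha ?_⟩
    rw [g3]; omega
  · refine ⟨by omega, AA_step p _ _ 0 ha ?_⟩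
    rw [g0]; omega

private lemma OO_half (p x : ℕ) (hp : p % 2 = 1) (h3 : 3 ≤ p) (h : OO p x) (he : x % 2 = 0) :
    OO p (x / 2 + 1) := by
  obtain ⟨hx, ha⟩ := h
  refine ⟨by omega, AA_step p _ _ 1 ha ?_⟩
  rw [g1]; omega

private lemma OO_odd (p x : ℕ) (hp : p % 2 = 1) (h3 : 3 ≤ p) (h : OO p x) (he : x % 2 = 1) :
    OO p ((x + 1) / 2) := by
  obtain ⟨hx, ha⟩ := h
  refine ⟨by omega, AA_step p _ _ 2 ha ?_⟩
  rw [g2]; omega

private lemma OO_back (p : ℕ) (hp : p % 2 = 1) (x : ℕ) (h1 : 1 ≤ x)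
    (h2 : x ≤ p - 1) (h : OO p (sg p x)) : OO p x := by
  classical
  set S : Finset ℕ := (Finset.Icc 1 (p - 1)).filter (fun y => OO p y) with hS
  have hinj : ∀ a ∈ Finset.Icc 1 (p - 1), ∀ b ∈ Finset.Icc 1 (p - 1), sg p a = sg p b → a = b := by
    intro a ha b hb hab
    rw [Finset.mem_Icc] at ha hb
    unfold sg at hab
    split_ifs at hab <;> omega
  have hmaps : ∀ a, 1 ≤ a → a ≤ p - 1 → 1 ≤ sg p a ∧ sg p a ≤ p - 1 := by
    intro a ha hb
    unfold sg
    split_ifs <;> omega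
  have hsub : S.image (sg p) ⊆ S := by
    intro y hy
    obtain ⟨a, ha, rfl⟩ := Finset.mem_image.1 hy
    rw [hS, Finset.mem_filter, Finset.mem_Icc] at ha ⊢
    exact ⟨hmaps a ha.1.1 ha.1.2, OO_sg p a hp ha.2⟩
  have hcard : (S.image (sg p)).card = S.card := by
    refine Finset.card_image_of_injOn ?_
    intro a ha b hb hab
    have ha' : a ∈ S := ha
    have hb' : b ∈ S := hb
    rw [hS, Finset.mem_filter] at ha' hb'
    exact hinj a ha'.1 b hb'.1 hab
  have heq : S.image (sg p) = S := Finset.eq_of_subset_of_card_le hsub (le_of_eq hcard.symm)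
  have hmem : sg p x ∈ S := by
    rw [hS, Finset.mem_filter, Finset.mem_Icc]
    exact ⟨hmaps x h1 h2, h⟩
  rw [← heq] at hmem
  obtain ⟨a, ha, hax⟩ := Finset.mem_image.1 hmem
  rw [hS, Finset.mem_filter] at ha
  have : a = x := hinj a ha.1 x (Finset.mem_Icc.2 ⟨h1, h2⟩) hax
  rw [← this]
  exact ha.2

theorem dig (p : ℕ) (hp : p % 2 = 1) (h3 : 3 ≤ p) :
    ∃ (N : ℕ) (d : ℕ → Fin 4),
      ∑ k ∈ Finset.range N, (![0, p - 2, p - 1, p] (d k) : ℕ) * 2 ^ k = 2 ^ N := by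
  have hOp : OO p p := ⟨le_refl p, by rw [Nat.sub_self]; exact AA_zero p⟩
  have hO1 : OO p 1 := by
    refine OO_back p hp 1 le_rfl (by omega) ?_
    have h := OO_odd p p hp h3 hOp hp
    have : sg p 1 = (p + 1) / 2 := by
      unfold sg
      rw [if_neg (by norm_num), Nat.add_comm]
    rw [this]
    exact h
  have hev : ∀ j : ℕ, 1 ≤ j → 2 * j ≤ p - 1 → OO p (2 * j) := by
    intro j hj
    induction j, hj using Nat.le_induction with
    | base =>
      intro h
      refine OO_back p hp 2 (by norm_num) h ?_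
      have : sg p 2 = 1 := by
        unfold sg
        rw [if_pos (by norm_num)]
      rw [this]
      exact hO1
    | succ j hj ih =>
      intro h
      have h0 : OO p (2 * j) := ih (by omega)
      have h1 := OO_half p (2 * j) hp h3 h0 (by omega)
      refine OO_back p hp (2 * (j + 1)) (by omega) h ?_
      have : sg p (2 * (j + 1)) = 2 * j / 2 + 1 := by
        unfold sg
        rw [if_pos (by omega)]
        omega
      rw [this]
      exact h1
  have hlast : OO p (p - 1) := by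
    have h := hev ((p - 1) / 2) (by omega) (by omega)
    have h2 : 2 * ((p - 1) / 2) = p - 1 := by omega
    rw [h2] at h
    exact h
  obtain ⟨_, N, d, hd⟩ := hlast
  refine ⟨N, d, ?_⟩
  have h1 : p - (p - 1) = 1 := by omega
  rw [h1, one_mul] at hd
  exact hd

end Pool.Agent.Lib.MP_be2ccc_co.SH
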