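import Mathlib
import Pool.Agent.Lib.MP_be2ccc_co.SH.Dig

/-!
# SH-Num5: the weights for `q ≡ 5 (mod 8)`

Let `p = (q + 1)/2` (odd, `≥ 3`), `N, d` from `dig`, `e ≥ 1` with `|y| ≤ 2^e`, `s = e + N + 1`.
For `k < e` the classes `α k, β k ∈ {2, 3}` and `ε ∈ {2, 3}` are chosen such that, with sign `+1`
for class `2` and `-1` for class `3`, `∑ k < e, 2^k (sgn (α k) + sgn (β k)) + sgn ε = y`:
every odd `t`, `|t| ≤ 2^e - 1`, is `∑ k < e, ±2^k` (`t = 2v - (2^e - 1)`, bits of `v`); if `y ≤ 1`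
take `sgn (β k) = -1`, `sgn ε = 1`, `t = y + 2^e - 2`; if `y > 1` take `sgn (β k) = 1`,
`sgn ε = -1`, `t = y + 2 - 2^e`. For `e ≤ k < e + N` the pair `(α k, β k)` is
`(2,3), (1,1), (0,1), (0,0)` for the digit `d (k - e) = 0, 1, 2, 3`; for `k = e + N` it is `(2,3)`.
Then `p k₀ + (p - 2) k₁ = 2 · 2^e · ∑ g (d j) 2^j = 2^(e+N+1)`, which is the second equation
(`q + 1 = 2p`, `q - 3 = 2 (p - 2)`), `k₂ - k₃ = y`, and `1 + ∑ k = 2^(s+1)` is
`1 + 2 ∑ k < s, 2^k + 1`.
-/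

set_option autoImplicit false

namespace Pool.Agent.Lib.MP_be2ccc_co.SH

private def cc (i : Fin 4) : ℤ := (![0, 0, 1, -1] i : ℤ)

private lemma signs (e : ℕ) : ∀ v : ℕ, v < 2 ^ e → ∃ b : ℕ → Fin 4, (∀ k, b k = 2 ∨ b k = 3) ∧
    ∑ k ∈ Finset.range e, (2 : ℤ) ^ k * cc (b k) = 2 * v - (2 ^ e - 1) := by
  induction e with
  | zero =>
    intro v hv
    have : v = 0 := by simpa using hv
    subst this
    exact ⟨fun _ => 2, fun _ => Or.inl rfl, by simp⟩
  | succ e ih =>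
    intro v hv
    by_cases h : v < 2 ^ e
    · obtain ⟨b, hb, hs⟩ := ih v h
      refine ⟨fun k => if k < e then b k else 3, fun k => ?_, ?_⟩
      · simp only
        split_ifs
        · exact hb k
        · exact Or.inr rfl
      · rw [Finset.sum_range_succ, Finset.sum_congr rfl (g := fun k => (2 : ℤ) ^ k * cc (b k))
          (fun k hk => by simp only [if_pos (Finset.mem_range.1 hk)]), hs]
        simp only [lt_irrefl, if_false]
        have : cc 3 = -1 := rfl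
        rw [this, pow_succ]
        ring
    · obtain ⟨b, hb, hs⟩ := ih (v - 2 ^ e) (by rw [pow_succ] at hv; omega)
      refine ⟨fun k => if k < e then b k else 2, fun k => ?_, ?_⟩
      · simp only
        split_ifs
        · exact hb k
        · exact Or.inl rfl
      · rw [Finset.sum_range_succ, Finset.sum_congr rfl (g := fun k => (2 : ℤ) ^ k * cc (b k))
          (fun k hk => by simp only [if_pos (Finset.mem_range.1 hk)]), hs]
        simp only [lt_irrefl, if_false]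
        have : cc 2 = 1 := rfl
        push Not at h
        rw [this, pow_succ, Nat.cast_sub h]
        push_cast
        ring

private lemma lin (s : ℕ) (α β : ℕ → Fin 4) (ε : Fin 4) (h : Fin 4 → ℤ) (k : Fin 4 → ℤ)
    (hk : k = fun i => (∑ j ∈ Finset.range s, if α j = i then (2 : ℤ) ^ j else 0) +
        (∑ j ∈ Finset.range s, if β j = i then (2 : ℤ) ^ j else 0) + if ε = i then 1 else 0) :
    ∑ i, h i * k i = ∑ j ∈ Finset.range s, (2 : ℤ) ^ j * (h (α j) + h (β j)) + h ε := by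
  subst hk
  simp only [mul_add, Finset.sum_add_distrib, Finset.mul_sum]
  rw [Finset.sum_comm, Finset.sum_comm (s := Finset.univ) (t := Finset.range s)
    (f := fun i j => h i * if β j = i then (2 : ℤ) ^ j else 0)]
  simp only [mul_ite, mul_zero, mul_one, Finset.sum_ite_eq, Finset.mem_univ, if_true]
  congr 2
  · exact Finset.sum_congr rfl fun j _ => mul_comm _ _
  · exact Finset.sum_congr rfl fun j _ => mul_comm _ _

theorem num5 (q : ℕ) (h5 : q % 8 = 5) (y : ℤ) (hy : Odd y) :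
    ∃ (s : ℕ) (α β : ℕ → Fin 4) (ε : Fin 4), 1 ≤ s ∧ ∀ k : Fin 4 → ℤ,
      (k = fun i => (∑ j ∈ Finset.range s, if α j = i then (2 : ℤ) ^ j else 0) +
        (∑ j ∈ Finset.range s, if β j = i then (2 : ℤ) ^ j else 0) + if ε = i then 1 else 0) →
      1 + k 0 + k 1 + k 2 + k 3 = 2 ^ (s + 1) ∧
      ((q : ℤ) + 1) * k 0 + ((q : ℤ) - 3) * k 1 = 2 ^ (s + 1) ∧ k 2 - k 3 = y := by
  obtain ⟨p, hp⟩ : ∃ p : ℕ, q + 1 = 2 * p := ⟨(q + 1) / 2, by omega⟩
  have hpo : p % 2 = 1 := by omega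
  have hp3 : 3 ≤ p := by omega
  obtain ⟨N, d, hd⟩ := dig p hpo hp3
  -- the size of `y`
  obtain ⟨e, he1, he⟩ : ∃ e : ℕ, 1 ≤ e ∧ |y| ≤ 2 ^ e := by
    refine ⟨y.natAbs + 1, by omega, ?_⟩
    have h1 : y.natAbs + 1 < 2 ^ (y.natAbs + 1) := Nat.lt_two_pow_self
    have h2 : ((y.natAbs : ℕ) : ℤ) = |y| := Int.natCast_natAbs y
    rw [← h2]
    have h3 : ((y.natAbs : ℕ) : ℤ) ≤ ((2 ^ (y.natAbs + 1) : ℕ) : ℤ) := by
      exact_mod_cast (by omega : y.natAbs ≤ 2 ^ (y.natAbs + 1))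
    rw [Nat.cast_pow] at h3
    exact h3
  obtain ⟨z, hz⟩ := hy
  obtain ⟨E, hE⟩ : ∃ E : ℕ, 2 ^ e = 2 * E := ⟨2 ^ (e - 1), by
    rw [← pow_succ']
    congr 1
    omega⟩
  have hEz : (2 : ℤ) ^ e = 2 * E := by exact_mod_cast hE
  have hE1 : 1 ≤ E := by
    have := Nat.one_le_two_pow (n := e)
    omega
  rw [abs_le, hEz] at he
  -- the low digits
  obtain ⟨b, β₀, ε, hb, hβ₀, hε, hsum⟩ : ∃ (b : ℕ → Fin 4) (β₀ ε : Fin 4),
      (∀ k, b k = 2 ∨ b k = 3) ∧ (β₀ = 2 ∨ β₀ = 3) ∧ (ε = 2 ∨ ε = 3) ∧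
      ∑ k ∈ Finset.range e, (2 : ℤ) ^ k * (cc (b k) + cc β₀) + cc ε = y := by
    have hgeo : ∑ k ∈ Finset.range e, (2 : ℤ) ^ k = 2 ^ e - 1 := by
      have := geom_sum_mul (2 : ℤ) e
      linarith
    by_cases hy1 : y ≤ 1
    · obtain ⟨b, hb, hs⟩ := signs e ((y + 2 * (2 * E) - 3) / 2).toNat (by
        rw [hE]
        omega)
      refine ⟨b, 3, 2, hb, Or.inr rfl, Or.inl rfl, ?_⟩
      have e3 : cc 3 = -1 := rfl
      have e2 : cc 2 = 1 := rfl
      simp only [mul_add, Finset.sum_add_distrib, e3, e2]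
      rw [hs, ← Finset.sum_mul, hgeo, Int.toNat_of_nonneg (by omega), hEz]
      omega
    · obtain ⟨b, hb, hs⟩ := signs e ((y + 1) / 2).toNat (by
        rw [hE]
        omega)
      refine ⟨b, 2, 3, hb, Or.inl rfl, Or.inr rfl, ?_⟩
      have e3 : cc 3 = -1 := rfl
      have e2 : cc 2 = 1 := rfl
      simp only [mul_add, Finset.sum_add_distrib, e3, e2]
      rw [hs, ← Finset.sum_mul, hgeo, Int.toNat_of_nonneg (by omega), hEz]
      omega
  set α : ℕ → Fin 4 := fun k => if k < e then b k else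
    if k < e + N then (![2, 1, 0, 0] (d (k - e)) : Fin 4) else 2 with hα
  set β : ℕ → Fin 4 := fun k => if k < e then β₀ else
    if k < e + N then (![3, 1, 1, 0] (d (k - e)) : Fin 4) else 3 with hβ
  -- sums over the digits
  have split : ∀ h : Fin 4 → ℤ, ∑ j ∈ Finset.range (e + N + 1), (2 : ℤ) ^ j * (h (α j) + h (β j)) =
      ∑ j ∈ Finset.range e, (2 : ℤ) ^ j * (h (b j) + h β₀) +
      2 ^ e * ∑ j ∈ Finset.range N, (2 : ℤ) ^ j * (h (![2, 1, 0, 0] (d j) : Fin 4) +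
        h (![3, 1, 1, 0] (d j) : Fin 4)) + 2 ^ (e + N) * (h 2 + h 3) := by
    intro h
    rw [Finset.sum_range_succ, Finset.sum_range_add]
    congr 1
    · congr 1
      · refine Finset.sum_congr rfl fun j hj => ?_
        have hj' := Finset.mem_range.1 hj
        simp only [hα, hβ, if_pos hj']
      · rw [Finset.mul_sum]
        refine Finset.sum_congr rfl fun j hj => ?_
        have hj' := Finset.mem_range.1 hj
        simp only [hα, hβ]
        rw [if_neg (by omega), if_pos (by omega), if_neg (by omega), if_pos (by omega),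
          Nat.add_sub_cancel_left, pow_add]
        ring
    · simp only [hα, hβ]
      rw [if_neg (by omega), if_neg (by omega), if_neg (by omega), if_neg (by omega)]
  refine ⟨e + N + 1, α, β, ε, by omega, fun k hk => ⟨?_, ?_, ?_⟩⟩
  · have h1 := lin _ α β ε (fun _ => 1) k hk
    rw [Fin.sum_univ_four] at h1
    simp only [one_mul] at h1
    have h2 : ∑ j ∈ Finset.range (e + N + 1), (2 : ℤ) ^ j * (1 + 1) = 2 * (2 ^ (e + N + 1) - 1) := by
      rw [← Finset.sum_mul]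
      have := geom_sum_mul (2 : ℤ) (e + N + 1)
      linarith
    rw [h2] at h1
    rw [pow_succ (2 : ℤ) (e + N + 1)]
    linarith
  · have hq : (q : ℤ) + 1 = 2 * p := by exact_mod_cast hp
    have h1 := lin _ α β ε (![(p : ℤ), (p : ℤ) - 2, 0, 0] : Fin 4 → ℤ) k hk
    rw [split, Fin.sum_univ_four] at h1
    have h2 : ∑ j ∈ Finset.range e, (2 : ℤ) ^ j * ((![(p : ℤ), (p : ℤ) - 2, 0, 0] : Fin 4 → ℤ) (b j) +
        (![(p : ℤ), (p : ℤ) - 2, 0, 0] : Fin 4 → ℤ) β₀) = 0 := by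
      refine Finset.sum_eq_zero fun j _ => ?_
      rcases hb j with h | h <;> rcases hβ₀ with h' | h' <;> rw [h, h'] <;> simp
    have h3 : (![(p : ℤ), (p : ℤ) - 2, 0, 0] : Fin 4 → ℤ) ε = 0 := by
      rcases hε with h | h <;> rw [h] <;> simp
    have h4 : ∑ j ∈ Finset.range N, (2 : ℤ) ^ j *
        ((![(p : ℤ), (p : ℤ) - 2, 0, 0] : Fin 4 → ℤ) (![2, 1, 0, 0] (d j) : Fin 4) +
        (![(p : ℤ), (p : ℤ) - 2, 0, 0] : Fin 4 → ℤ) (![3, 1, 1, 0] (d j) : Fin 4)) = 2 * 2 ^ N := by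
      have h5 : ((∑ k ∈ Finset.range N, (![0, p - 2, p - 1, p] (d k) : ℕ) * 2 ^ k : ℕ) : ℤ) =
          2 ^ N := by exact_mod_cast congrArg (fun n : ℕ => (n : ℤ)) hd
      rw [← h5, Nat.cast_sum, Finset.mul_sum]
      refine Finset.sum_congr rfl fun j _ => ?_
      have h6 : ∀ i : Fin 4, ((![(p : ℤ), (p : ℤ) - 2, 0, 0] : Fin 4 → ℤ)
          (![2, 1, 0, 0] i : Fin 4) + (![(p : ℤ), (p : ℤ) - 2, 0, 0] : Fin 4 → ℤ)
          (![3, 1, 1, 0] i : Fin 4)) = 2 * ((![0, p - 2, p - 1, p] i : ℕ) : ℤ) := by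
        intro i
        fin_cases i
        · simp
        · simp
          omega
        · simp
          omega
        · simp
          ring
      rw [h6]
      push_cast
      ring
    rw [h2, h3, h4] at h1
    have h7 : (q : ℤ) - 3 = 2 * (p - 2) := by linarith
    rw [hq, h7]
    simp at h1
    rw [pow_succ (2 : ℤ) (e + N + 1), pow_succ (2 : ℤ) (e + N), pow_add]
    linear_combination 2 * h1
  · have h1 := lin _ α β ε cc k hk
    rw [split, Fin.sum_univ_four] at h1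
    have h4 : ∑ j ∈ Finset.range N, (2 : ℤ) ^ j *
        (cc (![2, 1, 0, 0] (d j) : Fin 4) + cc (![3, 1, 1, 0] (d j) : Fin 4)) = 0 := by
      refine Finset.sum_eq_zero fun j _ => ?_
      have h6 : ∀ i : Fin 4, cc (![2, 1, 0, 0] i : Fin 4) + cc (![3, 1, 1, 0] i : Fin 4) = 0 := by
        intro i
        fin_cases i <;> simp [cc]
      rw [h6, mul_zero]
    rw [h4] at h1
    have c0 : cc 0 = 0 := rfl
    have c1 : cc 1 = 0 := rfl
    have c2 : cc 2 = 1 := rfl
    have c3 : cc 3 = -1 := rfl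
    rw [c0, c1, c2, c3] at h1
    linear_combination h1 + hsum

end Pool.Agent.Lib.MP_be2ccc_co.SH
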