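import Mathlib
import Pool.Agent.Lib.MP_be2ccc_co.NF.Conf

/-!
# SH-Quart: quartic classes of a field with `q ≡ 5 (mod 8)` elements

For `x ≠ 0` let `s(x) = x^((q-1)/4)`, a fourth root of unity; `ι = s(ω)` for a generator `ω` of
`Fˣ` has `ι^2 = -1`. Put `f x = 1, -1, 0, 0` and `g x = 0, 0, 1, -1` for
`s(x) = 1, -1, ι, -ι`, and `f 0 = g 0 = 0`. Then `f(ωx) = -g(x)`, `g(ωx) = f(x)` (or the other sign),
`f, g` are odd functions since `s(-1) = (-1)^((q-1)/4) = -1`, `f² + g² = 1` off `0`,
`χ(x) = f(x)² - g(x)²` (`χ = quadraticChar`: `s(x)² = x^((q-1)/2)`, `quadraticChar_eq_pow_of_char_ne_two'`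
or `quadraticChar_apply`).
Convolutions: `u(x) = ∑ y, (f y f (x - y) + g y g (x - y))` satisfies `u(ω x) = u(x)`, so is constant
on `x ≠ 0`; `u(0) = -(q-1)`; `∑ x, u x = 0` (as `∑ f = ∑ g = 0`, odd functions), so `u(x) = 1` for
`x ≠ 0`. `v(x) = ∑ y, f y g (x - y)` satisfies `v(ωx) = -v(x)` (use `y ↦ ω y`, `y ↦ x - y`), so
`v(x) = v(1) χ(x)` for `x ≠ 0` (`χ(ω) = -1`) and `v(0) = 0` (`v(0) = -∑ f g = 0`).
`v(1)` is odd: with `μ = f + g`, `1 + 2 v(1) = ∑ y μ(y) μ(1-y)`; the sum has `q - 2` terms `±1`,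
invariant under `y ↦ 1 - y` with the fixed point `1/2` of value `1`, so it is
`≡ 1 + (q - 3) ≡ 3 (mod 4)`. (Alternatively count `#{y : f y ≠ 0, g (1-y) ≠ 0} = (q-1)/4` mod 2.)
-/

set_option autoImplicit false

namespace Pool.Agent.Lib.MP_be2ccc_co.SH

open Finset

private theorem quart_data (F : Type) [Field F] [Fintype F] [DecidableEq F]
    (h5 : Fintype.card F % 8 = 5) :
    ∃ (f g : F → ℤ) (ω : Fˣ), (∀ x : Fˣ, ∃ k : ℕ, ω ^ k = x) ∧ f 0 = 0 ∧ g 0 = 0 ∧
      (∀ x, f (-x) = -f x) ∧ (∀ x, g (-x) = -g x) ∧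
      (∀ x, x ≠ 0 → f x ^ 2 + g x ^ 2 = 1) ∧ (∀ x, f x * g x = 0) ∧
      (∀ x : F, f (ω * x) = -g x) ∧ (∀ x : F, g (ω * x) = f x) ∧
      (∀ x, quadraticChar F x = f x ^ 2 - g x ^ 2) := by
  obtain ⟨ω, hω⟩ := IsCyclic.exists_generator (α := Fˣ)
  have hchar : ringChar F ≠ 2 := by
    intro h
    have := FiniteField.even_card_of_char_two h
    omega
  obtain ⟨m, hm⟩ : ∃ m, Fintype.card F = 4 * m + 1 := ⟨(Fintype.card F - 1) / 4, by omega⟩
  have hmo : Odd m := by
    rw [Nat.odd_iff]; omega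
  have hm0 : m ≠ 0 := by
    rintro rfl; omega
  have h2 : (1 : F) ≠ -1 := by
    intro h
    exact Ring.neg_one_ne_one_of_char_ne_two hchar h.symm
  have hpow4 : ∀ x : F, x ≠ 0 → x ^ (4 * m) = 1 := by
    intro x hx
    have := FiniteField.pow_card_sub_one_eq_one x hx
    rwa [hm, Nat.add_sub_cancel] at this
  have hord : orderOf ω = 4 * m := by
    rw [orderOf_eq_card_of_forall_mem_zpowers hω, Nat.card_eq_fintype_card, Fintype.card_units, hm,
      Nat.add_sub_cancel]
  obtain ⟨i0, hi0⟩ : ∃ i0 : F, i0 = (ω : F) ^ m := ⟨_, rfl⟩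
  have hii : i0 ^ 2 = -1 := by
    have h1 : (i0 ^ 2) ^ 2 = 1 := by
      rw [hi0, ← pow_mul, ← pow_mul, show m * (2 * 2) = 4 * m by ring]
      exact hpow4 _ ω.ne_zero
    rcases sq_eq_one_iff.1 h1 with h | h
    · exfalso
      have h3 : ω ^ (2 * m) = 1 := by
        ext
        rw [Units.val_pow_eq_pow_val, Units.val_one, ← h, hi0, ← pow_mul, mul_comm]
      have h4 := orderOf_dvd_of_pow_eq_one h3
      rw [hord] at h4
      have := Nat.le_of_dvd (by omega) h4
      omega
    · exact h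
  have h10 : (1 : F) ≠ 0 := one_ne_zero
  have hm10 : (-1 : F) ≠ 0 := neg_ne_zero.2 one_ne_zero
  have hi00 : i0 ≠ 0 := by
    rintro h; rw [h] at hii; norm_num at hii
  have hmi00 : -i0 ≠ 0 := neg_ne_zero.2 hi00
  have hi1 : i0 ≠ 1 := by
    rintro h; rw [h, one_pow] at hii; exact h2 hii
  have hi2 : i0 ≠ -1 := by
    rintro h; rw [h] at hii; norm_num at hii; exact h2 hii
  have hi3 : -i0 ≠ 1 := by
    intro h; exact hi2 (by rw [← h, neg_neg])
  have hi4 : -i0 ≠ -1 := by
    intro h; exact hi1 (neg_injective h)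
  have hi5 : i0 ≠ -i0 := by
    intro h
    have h6 : i0 * (1 - (-1)) = 0 := by
      rw [mul_sub]
      nth_rewrite 1 [h]
      ring
    rcases mul_eq_zero.1 h6 with h7 | h7
    · exact hi00 h7
    · exact h2 (sub_eq_zero.1 h7)
  have h4 : ∀ x : F, x ≠ 0 → x ^ m = 1 ∨ x ^ m = -1 ∨ x ^ m = i0 ∨ x ^ m = -i0 := by
    intro x hx
    have h1 : ((x ^ m) ^ 2) ^ 2 = 1 := by
      rw [← pow_mul, ← pow_mul, show m * (2 * 2) = 4 * m by ring]
      exact hpow4 _ hx
    rcases sq_eq_one_iff.1 h1 with h | h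
    · rcases sq_eq_one_iff.1 h with h | h
      · exact Or.inl h
      · exact Or.inr (Or.inl h)
    · rw [← hii] at h
      rcases sq_eq_sq_iff_eq_or_eq_neg.1 h with h | h
      · exact Or.inr (Or.inr (Or.inl h))
      · exact Or.inr (Or.inr (Or.inr h))
  obtain ⟨F1, hF1⟩ : ∃ F1 : F → ℤ, ∀ z, F1 z = if z = 1 then 1 else if z = -1 then -1 else 0 :=
    ⟨_, fun _ => rfl⟩
  obtain ⟨G1, hG1⟩ : ∃ G1 : F → ℤ, ∀ z, G1 z = if z = i0 then 1 else if z = -i0 then -1 else 0 :=
    ⟨_, fun _ => rfl⟩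
  have f0 : F1 0 = 0 := by rw [hF1, if_neg h10.symm, if_neg hm10.symm]
  have f1 : F1 1 = 1 := by rw [hF1, if_pos rfl]
  have f2 : F1 (-1) = -1 := by rw [hF1, if_neg h2.symm, if_pos rfl]
  have f3 : F1 i0 = 0 := by rw [hF1, if_neg hi1, if_neg hi2]
  have f4 : F1 (-i0) = 0 := by rw [hF1, if_neg hi3, if_neg hi4]
  have g0 : G1 0 = 0 := by rw [hG1, if_neg hi00.symm, if_neg hmi00.symm]
  have g1 : G1 1 = 0 := by rw [hG1, if_neg hi1.symm, if_neg hi3.symm]
  have g2 : G1 (-1) = 0 := by rw [hG1, if_neg hi2.symm, if_neg hi4.symm]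
  have g3 : G1 i0 = 1 := by rw [hG1, if_pos rfl]
  have g4 : G1 (-i0) = -1 := by rw [hG1, if_neg hi5.symm, if_pos rfl]
  have z0 : (0 : F) ^ m = 0 := zero_pow hm0
  refine ⟨fun x => F1 (x ^ m), fun x => G1 (x ^ m), ω, ?_, ?_, ?_, ?_, ?_, ?_, ?_, ?_, ?_, ?_⟩
  · intro x
    have := mem_powers_iff_mem_zpowers.2 (hω x)
    obtain ⟨k, hk⟩ := this
    exact ⟨k, hk⟩
  · simp only [z0, f0]
  · simp only [z0, g0]
  · intro x
    simp only [hmo.neg_pow]
    by_cases hx : x = 0
    · simp only [hx, z0, neg_zero, f0]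
    · rcases h4 x hx with h | h | h | h <;> simp only [h, neg_neg, f1, f2, f3, f4, neg_zero]
  · intro x
    simp only [hmo.neg_pow]
    by_cases hx : x = 0
    · simp only [hx, z0, neg_zero, g0]
    · rcases h4 x hx with h | h | h | h <;> simp only [h, neg_neg, g1, g2, g3, g4, neg_zero]
  · intro x hx
    rcases h4 x hx with h | h | h | h <;> simp only [h, f1, f2, f3, f4, g1, g2, g3, g4] <;> norm_num
  · intro x
    by_cases hx : x = 0
    · simp only [hx, z0, f0, g0, mul_zero]
    · rcases h4 x hx with h | h | h | h <;> simp only [h, f1, f2, f3, f4, g1, g2, g3, g4] <;>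
        norm_num
  · intro x
    simp only [mul_pow, ← hi0]
    by_cases hx : x = 0
    · simp only [hx, z0, mul_zero, f0, g0, neg_zero]
    · rcases h4 x hx with h | h | h | h
      · simp only [h, mul_one, f3, g1, neg_zero]
      · simp only [h, mul_neg, mul_one, f4, g2, neg_zero]
      · simp only [h, ← pow_two, hii, f2, g3]
      · simp only [h, mul_neg, ← pow_two, hii, neg_neg, f1, g4]
  · intro x
    simp only [mul_pow, ← hi0]
    by_cases hx : x = 0
    · simp only [hx, z0, mul_zero, f0, g0]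
    · rcases h4 x hx with h | h | h | h
      · simp only [h, mul_one, g3, f1]
      · simp only [h, mul_neg, mul_one, g4, f2]
      · simp only [h, ← pow_two, hii, g2, f3]
      · simp only [h, mul_neg, ← pow_two, hii, neg_neg, g1, f4]
  · intro x
    by_cases hx : x = 0
    · simp only [hx, z0, f0, g0, MulChar.map_zero]
      norm_num
    · have hq := quadraticChar_eq_pow_of_char_ne_two' hchar x
      have hc2 : Fintype.card F / 2 = m * 2 := by omega
      rw [hc2, pow_mul] at hq
      rcases quadraticChar_dichotomy hx with h7 | h7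
      · rw [h7] at hq ⊢
        rcases h4 x hx with h | h | h | h
        · simp only [h, f1, g1]; norm_num
        · simp only [h, f2, g2]; norm_num
        · rw [h, hii] at hq; push_cast at hq; exact absurd hq h2
        · rw [h, neg_sq, hii] at hq; push_cast at hq; exact absurd hq h2
      · rw [h7] at hq ⊢
        rcases h4 x hx with h | h | h | h
        · rw [h, one_pow] at hq; push_cast at hq; exact absurd hq.symm h2
        · rw [h, neg_sq, one_pow] at hq; push_cast at hq; exact absurd hq.symm h2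
        · simp only [h, f3, g3]; norm_num
        · simp only [h, f4, g4]; norm_num

theorem quart (F : Type) [Field F] [Fintype F] [DecidableEq F] (h5 : Fintype.card F % 8 = 5) :
    ∃ (f g : F → ℤ) (v : ℤ), Odd v ∧ f 0 = 0 ∧ g 0 = 0 ∧
      (∀ x, f (-x) = -f x) ∧ (∀ x, g (-x) = -g x) ∧ (∀ x, x ≠ 0 → f x ^ 2 + g x ^ 2 = 1) ∧
      (∀ x, x ≠ 0 → ∑ y, (f y * f (x - y) + g y * g (x - y)) = 1) ∧
      (∀ x, ∑ y, f y * g (x - y) = v * quadraticChar F x) := by
  obtain ⟨f, g, ω, hω, f0, g0, fo, go, fg1, fg0, fω, gω, hχ⟩ := quart_data F h5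
  have hchar : ringChar F ≠ 2 := by
    intro h
    have := FiniteField.even_card_of_char_two h
    omega
  have key : ∀ P : F → ℤ, ∑ y, P y = ∑ y, P (ω * y) := fun P =>
    (Equiv.sum_comp (Units.mulLeft ω) P).symm
  obtain ⟨u, hu⟩ : ∃ u : F → ℤ, ∀ x, u x = ∑ y, (f y * f (x - y) + g y * g (x - y)) :=
    ⟨_, fun _ => rfl⟩
  obtain ⟨w, hw⟩ : ∃ w : F → ℤ, ∀ x, w x = ∑ y, f y * g (x - y) := ⟨_, fun _ => rfl⟩
  -- u is invariant
  have huω : ∀ x, u (ω * x) = u x := by
    intro x
    rw [hu, hu, key]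
    refine Finset.sum_congr rfl fun y _ => ?_
    rw [← mul_sub, fω, fω, gω, gω]
    ring
  have hwω : ∀ x, w (ω * x) = -w x := by
    intro x
    rw [hw, hw, key, ← Finset.sum_neg_distrib]
    rw [← Equiv.sum_comp (Equiv.subLeft x) (fun y => -(f y * g (x - y)))]
    refine Finset.sum_congr rfl fun y _ => ?_
    rw [← mul_sub, fω, gω, Equiv.subLeft_apply, sub_sub_cancel]
    ring
  have hupow : ∀ k : ℕ, u ((ω ^ k : Fˣ) : F) = u 1 := by
    intro k
    induction k with
    | zero => simp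
    | succ k ih => rw [pow_succ', Units.val_mul, huω, ih]
  have hwpow : ∀ k : ℕ, w ((ω ^ k : Fˣ) : F) = w 1 * (f ((ω ^ k : Fˣ) : F) ^ 2 -
      g ((ω ^ k : Fˣ) : F) ^ 2) := by
    intro k
    induction k with
    | zero =>
      rw [pow_zero, Units.val_one, ← hχ, map_one, mul_one]
    | succ k ih =>
      rw [pow_succ', Units.val_mul, hwω, ih, fω, gω]
      ring
  have hu1 : ∀ x, x ≠ 0 → u x = u 1 := by
    intro x hx
    obtain ⟨k, hk⟩ := hω (Units.mk0 x hx)
    rw [← hupow k, hk, Units.val_mk0]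
  have hw1 : ∀ x, x ≠ 0 → w x = w 1 * quadraticChar F x := by
    intro x hx
    obtain ⟨k, hk⟩ := hω (Units.mk0 x hx)
    have := hwpow k
    rw [hk, Units.val_mk0] at this
    rw [this, hχ]
  have hsf : ∑ y, f y = 0 := by
    have h := Equiv.sum_comp (Equiv.neg F) f
    simp only [Equiv.neg_apply, fo, Finset.sum_neg_distrib] at h
    omega
  have hsg : ∑ y, g y = 0 := by
    have h := Equiv.sum_comp (Equiv.neg F) g
    simp only [Equiv.neg_apply, go, Finset.sum_neg_distrib] at h
    omega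
  have hu0 : u 0 = -((Fintype.card F : ℤ) - 1) := by
    rw [hu]
    have : ∀ y : F, f y * f (0 - y) + g y * g (0 - y) = -1 + if y = 0 then 1 else 0 := by
      intro y
      rw [zero_sub, fo, go]
      split_ifs with h
      · rw [h, f0, g0]; norm_num
      · have := fg1 y h
        linarith [this]
    rw [Finset.sum_congr rfl fun y _ => this y, Finset.sum_add_distrib, Finset.sum_ite_eq']
    simp
    ring
  have husum : ∑ x, u x = 0 := by
    simp only [hu]
    rw [Finset.sum_comm]
    have : ∀ y : F, ∑ x, (f y * f (x - y) + g y * g (x - y)) = 0 := by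
      intro y
      rw [Finset.sum_add_distrib, ← Finset.mul_sum, ← Finset.mul_sum]
      have a1 := Equiv.sum_comp (Equiv.subRight y) f
      have a2 := Equiv.sum_comp (Equiv.subRight y) g
      simp only [Equiv.subRight_apply] at a1 a2
      rw [a1, a2, hsf, hsg]
      ring
    rw [Finset.sum_congr rfl fun y _ => this y, Finset.sum_const_zero]
  have hu11 : u 1 = 1 := by
    have h1 : ∑ x, u x = ((Fintype.card F : ℤ)) * u 1 + (u 0 - u 1) := by
      have : ∀ x : F, u x = u 1 + if x = 0 then u 0 - u 1 else 0 := by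
        intro x
        split_ifs with h
        · rw [h]; ring
        · rw [hu1 x h]; ring
      rw [Finset.sum_congr rfl fun y _ => this y, Finset.sum_add_distrib, Finset.sum_ite_eq']
      simp
    rw [husum, hu0] at h1
    have h2 : ((Fintype.card F : ℤ) - 1) * (u 1 - 1) = 0 := by linarith
    have h3 : ((Fintype.card F : ℤ) - 1) ≠ 0 := by omega
    have h4 := (mul_eq_zero.1 h2).resolve_left h3
    linarith
  have hw0 : w 0 = 0 := by
    rw [hw]
    refine Finset.sum_eq_zero fun y _ => ?_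
    rw [zero_sub, go, mul_neg, fg0, neg_zero]
  -- parity
  have hodd : Odd (w 1) := by
    obtain ⟨μ, hμ⟩ : ∃ μ : F → ℤ, ∀ x, μ x = f x + g x := ⟨_, fun _ => rfl⟩
    have hμ0 : μ 0 = 0 := by rw [hμ, f0, g0]; rfl
    have hμ2 : ∀ x, x ≠ 0 → μ x ^ 2 = 1 := by
      intro x hx
      have h1 := fg1 x hx
      have h2 := fg0 x
      rw [hμ]
      linear_combination h1 + 2 * h2
    have hμs : ∑ y, μ y * μ (1 - y) = 1 + 2 * w 1 := by
      have h1 : ∑ y, g y * f (1 - y) = w 1 := by
        rw [hw, ← Equiv.sum_comp (Equiv.subLeft (1 : F)) (fun y => f y * g (1 - y))]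
        refine Finset.sum_congr rfl fun y _ => ?_
        rw [Equiv.subLeft_apply, sub_sub_cancel]
        ring
      have h2 : ∑ y, μ y * μ (1 - y) = u 1 + w 1 + ∑ y, g y * f (1 - y) := by
        rw [hu, hw, ← Finset.sum_add_distrib, ← Finset.sum_add_distrib]
        refine Finset.sum_congr rfl fun y _ => ?_
        rw [hμ, hμ]
        ring
      rw [h2, h1, hu11]
      ring
    have hH : ∑ y : F, (((μ y * μ (1 - y) - if y = 0 ∨ y = 1 then 0 else 1 : ℤ)) : ZMod 4) = 0 := by
      refine Finset.sum_involution (fun y _ => 1 - y) ?_ ?_ ?_ ?_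
      · intro y _
        by_cases hy : y = 0 ∨ y = 1
        · have hy' : 1 - y = 0 ∨ 1 - y = 1 := by
            rcases hy with h | h
            · right; rw [h, sub_zero]
            · left; rw [h, sub_self]
          rw [if_pos hy, if_pos hy', sub_sub_cancel]
          rcases hy with h | h
          · rw [h, hμ0]; simp
          · rw [h, sub_self, hμ0]; simp
        · have hy' : ¬ (1 - y = 0 ∨ 1 - y = 1) := by
            rintro (h | h)
            · exact hy (Or.inr (sub_eq_zero.1 h).symm)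
            · exact hy (Or.inl (by simpa using h))
          rw [if_neg hy, if_neg hy', sub_sub_cancel]
          rw [not_or] at hy hy'
          have a1 := hμ2 y hy.1
          have a2 := hμ2 (1 - y) hy'.1
          have b1 := sq_eq_one_iff.1 a1
          have b2 := sq_eq_one_iff.1 a2
          rcases b1 with b1 | b1 <;> rcases b2 with b2 | b2 <;> rw [b1, b2] <;> decide
      · intro y _ hne heq
        apply hne
        have heq' : 1 - y = y := heq
        have hy : ¬ (y = 0 ∨ y = 1) := by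
          rintro (h | h)
          · rw [h, sub_zero] at heq'; exact one_ne_zero heq'
          · rw [h, sub_self] at heq'; exact one_ne_zero heq'.symm
        rw [heq', if_neg hy, ← pow_two, hμ2 y (fun h => hy (Or.inl h))]
        simp
      · intro y _; exact Finset.mem_univ _
      · intro y _; exact sub_sub_cancel 1 y
    have hI : ∑ y : F, (if y = 0 ∨ y = 1 then (0 : ℤ) else 1) = (Fintype.card F : ℤ) - 2 := by
      have : ∀ y : F, (if y = 0 ∨ y = 1 then (0 : ℤ) else 1) =
          1 - (if y = 0 then 1 else 0) - (if y = 1 then 1 else 0) := by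
        intro y
        by_cases h0 : y = 0
        · have : y ≠ 1 := by rw [h0]; exact zero_ne_one
          simp [h0]
        · by_cases h1 : y = 1
          · simp [h1]
          · simp [h0, h1]
      rw [Finset.sum_congr rfl fun y _ => this y, Finset.sum_sub_distrib, Finset.sum_sub_distrib,
        Finset.sum_ite_eq', Finset.sum_ite_eq']
      simp
      ring
    rw [← Int.cast_sum, Finset.sum_sub_distrib, hμs, hI, ZMod.intCast_zmod_eq_zero_iff_dvd] at hH
    obtain ⟨c, hc⟩ := hH
    rw [Int.odd_iff]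
    omega
  refine ⟨f, g, w 1, hodd, f0, g0, fo, go, fg1, ?_, ?_⟩
  · intro x hx
    rw [← hu, hu1 x hx, hu11]
  · intro x
    rw [← hw]
    by_cases hx : x = 0
    · rw [hx, hw0, MulChar.map_zero, mul_zero]
    · exact hw1 x hx

end Pool.Agent.Lib.MP_be2ccc_co.SH
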