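import Mathlib
import Pool.Agent.Lib.MP_be2ccc_co.SH.Defs
import Pool.Agent.Lib.MP_be2ccc_co.SH.Quart

/-!
# SH-Paley5: the blocks `Core5` over the field of `q ≡ 5 (mod 8)` elements

`F = GaloisField p f` as in `NF.Conf.paley_conf_pow`. With `f, g, v` from `quart`:
`μ x y = f (y - x) + g (y - x)`, `Q x y = χ(y - x)` (`χ(-1) = 1`), `R x y = if x + y = 0 then 1 else 0`,
`B 0 = J`, `B 1 = J - 2R`, `B 2 = (Q + 1) R`, i.e. `B 2 x z = χ(-z - x) + [x + z = 0]`,
`B 3 = (Q - 1) R`. So every `B i x z` is `b i (x + z)` for an even function `b i`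
(`b 0 = 1`, `b 1 t = 1 - 2[t = 0]`, `b 2 t = χ t + [t = 0]`, `b 3 t = χ t - [t = 0]`), and
`(B i B j) x z = ∑ y, b i (x + y) b j (y + z) = ∑ t, b i t b j (t + (z - x))`, symmetric in `i, j`
(substitute `t ↦ -t - (z - x)`, evenness). `B i * μ = -(μ * B i)`: `∑ y, b i (x + y) μ₀ (z - y)`
against `∑ y, μ₀ (y - x) b i (y + z)`, `μ₀ = f + g` odd: substitute `y ↦ y' = -x - z + y` up to sign.
`μ μ = J - q + 2 v Q`: entry at `(x, z)` is `∑ y μ₀ (y - x) μ₀ (z - y) = ∑ t μ₀ t μ₀ (d - t)`,
`d = z - x`; for `d ≠ 0` it is `1 + 2 v χ(d)` by `quart` (and `∑ g t f (d - t)` is the same as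
`∑ f t g (d - t)`); for `d = 0` it is `-∑ μ₀ t ^ 2 = -(q - 1)`.
`B 2 B 2`: `∑ t (χ t + [t=0]) (χ (t + d) + [t + d = 0]) = -1 + 2 χ(d)` for `d ≠ 0`
(`NF.chF_shift`, `χ(-d) = χ(d)`), and `q - 1 + 1 = q` for `d = 0`.
-/

set_option autoImplicit false

namespace Pool.Agent.Lib.MP_be2ccc_co.SH

open Matrix

section fld

variable (F : Type) [Field F] [Fintype F] [DecidableEq F]

/-- the four even functions -/
private def bf (i : Fin 4) (t : F) : ℤ :=
  ![1, 1 - 2 * (if t = 0 then 1 else 0), quadraticChar F t + (if t = 0 then 1 else 0),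
    quadraticChar F t - (if t = 0 then 1 else 0)] i

private lemma char_ne (h5 : Fintype.card F % 8 = 5) : ringChar F ≠ 2 := by
  intro h
  have h1 : Fintype.card F % 2 = 0 := FiniteField.even_card_of_char_two h
  omega

private lemma chi_neg (h5 : Fintype.card F % 8 = 5) (t : F) :
    quadraticChar F (-t) = quadraticChar F t := by
  have h1 : quadraticChar F (-1) = 1 := by
    rw [quadraticChar_neg_one (char_ne F h5), ZMod.χ₄_nat_one_mod_four (by omega)]
  rw [neg_eq_neg_one_mul, map_mul, h1, one_mul]

private lemma bf_neg (h5 : Fintype.card F % 8 = 5) (i : Fin 4) (t : F) :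
    bf F i (-t) = bf F i t := by
  have h1 : ((-t = 0) ↔ (t = 0)) := neg_eq_zero
  fin_cases i <;> simp [bf, h1, chi_neg F h5]

private lemma bf_sq (i : Fin 4) (t : F) : bf F i t ^ 2 = 1 := by
  by_cases ht : t = 0
  · subst ht
    fin_cases i <;> simp [bf]
  · have h1 := quadraticChar_sq_one (F := F) ht
    fin_cases i
    · simp [bf]
    · simp [bf, ht]
    · show (quadraticChar F t + (if t = 0 then 1 else 0)) ^ 2 = 1
      rw [if_neg ht, add_zero]
      exact h1
    · show (quadraticChar F t - (if t = 0 then 1 else 0)) ^ 2 = 1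
      rw [if_neg ht, sub_zero]
      exact h1

private lemma sum_chi2 (h5 : Fintype.card F % 8 = 5) (d : F) :
    ∑ t : F, quadraticChar F t * quadraticChar F (t + d) =
      if d = 0 then (Fintype.card F : ℤ) - 1 else -1 := by
  split_ifs with hd
  · subst hd
    have h1 : ∀ t : F, quadraticChar F t * quadraticChar F (t + 0) = 1 - if t = 0 then 1 else 0 := by
      intro t
      rw [add_zero]
      by_cases ht : t = 0
      · subst ht; simp
      · have := quadraticChar_sq_one (F := F) ht
        rw [sq] at this
        rw [this, if_neg ht, sub_zero]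
    rw [Finset.sum_congr rfl fun t _ => h1 t, Finset.sum_sub_distrib]
    simp
  · exact NF.chF_shift F (char_ne F h5) d hd

private lemma sum_shift (a : F → F → ℤ) (x z : F) :
    ∑ y, a (x + y) (y + z) = ∑ t, a t (t + (z - x)) := by
  refine Fintype.sum_equiv (Equiv.addLeft x) _ _ ?_
  intro y
  simp only [Equiv.coe_addLeft]
  congr 1
  ring

private lemma sum_b (h5 : Fintype.card F % 8 = 5) (c d : ℤ) (u : F) :
    ∑ t, (quadraticChar F t + c * (if t = 0 then 1 else 0)) *
      (quadraticChar F (t + u) + d * (if t + u = 0 then 1 else 0)) =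
      (if u = 0 then (Fintype.card F : ℤ) - 1 + c * d else -1 + (c + d) * quadraticChar F u) := by
  have h1 : ∀ t : F, (quadraticChar F t + c * (if t = 0 then 1 else 0)) *
      (quadraticChar F (t + u) + d * (if t + u = 0 then 1 else 0)) =
      quadraticChar F t * quadraticChar F (t + u) +
        (if t = 0 then c * (quadraticChar F u + d * (if u = 0 then 1 else 0)) else 0) +
        (if t = -u then d * quadraticChar F u else 0) := by
    intro t
    have h2 : (t + u = 0) ↔ (t = -u) := by rw [add_eq_zero_iff_eq_neg]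
    by_cases ht : t = 0
    · subst ht
      by_cases hu : u = 0
      · subst hu; simp
      · have h3 : ¬ ((0 : F) = -u) := by
          intro h
          exact hu (by rw [← neg_eq_zero, ← h])
        simp only [h2, if_neg h3, if_true, if_neg hu, zero_add, MulChar.map_zero]
        ring
    · by_cases hu : t = -u
      · have h4 : quadraticChar F t = quadraticChar F u := by rw [hu, chi_neg F h5]
        simp only [h2, if_pos hu, if_neg ht, h4]
        ring
      · simp only [h2, if_neg hu, if_neg ht]
        ring
  rw [Finset.sum_congr rfl fun t _ => h1 t, Finset.sum_add_distrib, Finset.sum_add_distrib,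
    sum_chi2 F h5, Finset.sum_ite_eq' Finset.univ (0 : F), Finset.sum_ite_eq' Finset.univ (-u)]
  simp only [Finset.mem_univ, if_true]
  split_ifs with hu
  · subst hu
    simp only [MulChar.map_zero]
    ring
  · ring

private theorem core5_field (h5 : Fintype.card F % 8 = 5) :
    ∃ (y : ℤ) (μ : Matrix F F ℤ) (B : Fin 4 → Matrix F F ℤ) (Q : Matrix F F ℤ),
      Odd y ∧ Core5 (Fintype.card F : ℤ) y μ B Q := by
  obtain ⟨f, g, v, hv, hf0, hg0, hf, hg, hfg, hfc, hgc⟩ := quart F h5
  have hz : ∀ x, f x * g x = 0 := by
    intro x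
    by_cases hx : x = 0
    · rw [hx, hf0, zero_mul]
    · have h1 := hfg x hx
      by_contra hne
      have h2 : f x ≠ 0 := left_ne_zero_of_mul hne
      have h3 : g x ≠ 0 := right_ne_zero_of_mul hne
      have h4 : 0 < f x ^ 2 := by positivity
      have h5' : 0 < g x ^ 2 := by positivity
      omega
  have hm : ∀ x, (f x + g x) ^ 2 = 1 - if x = 0 then 1 else 0 := by
    intro x
    by_cases hx : x = 0
    · rw [hx, hf0, hg0]; simp
    · rw [if_neg hx]
      have h1 := hfg x hx
      have h2 := hz x
      linear_combination h1 + 2 * h2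
  refine ⟨v, Matrix.of fun x y => f (y - x) + g (y - x), fun i => Matrix.of fun x y => bf F i (x + y),
    Matrix.of fun x y => quadraticChar F (y - x), hv, ?_⟩
  constructor
  · ext x y
    simp only [transpose_apply, Matrix.neg_apply, of_apply]
    rw [← neg_sub y x, hf, hg]
    ring
  · intro i
    ext x y
    simp only [transpose_apply, of_apply]
    rw [add_comm]
  · intro i j
    ext x z
    simp only [Matrix.mul_apply, of_apply]
    refine Fintype.sum_equiv (Equiv.subLeft (-x - z)) _ _ ?_
    intro y
    simp only [Equiv.subLeft_apply]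
    have h1 : x + (-x - z - y) = -(y + z) := by ring
    have h2 : -x - z - y + z = -(x + y) := by ring
    rw [h1, h2, bf_neg F h5, bf_neg F h5, mul_comm]
  · intro i
    ext x z
    simp only [Matrix.mul_apply, of_apply, Matrix.neg_apply]
    rw [← Finset.sum_neg_distrib]
    refine Fintype.sum_equiv (Equiv.addRight (x - z)) _ _ ?_
    intro y
    simp only [Equiv.coe_addRight]
    have h1 : y + (x - z) - x = -(z - y) := by ring
    have h2 : y + (x - z) + z = x + y := by ring
    rw [h1, h2, hf, hg]
    ring
  · ext x z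
    simp only [Matrix.mul_apply, of_apply, Matrix.add_apply, Matrix.sub_apply, Matrix.smul_apply,
      smul_eq_mul, Matrix.one_apply]
    have h1 : ∑ y, (f (y - x) + g (y - x)) * (f (z - y) + g (z - y)) =
        ∑ t, (f t + g t) * (f ((z - x) - t) + g ((z - x) - t)) := by
      refine Fintype.sum_equiv (Equiv.subRight x) _ _ ?_
      intro y
      simp only [Equiv.subRight_apply]
      have h2 : z - x - (y - x) = z - y := by ring
      rw [h2]
    rw [h1]
    by_cases hxz : x = z
    · subst hxz
      rw [sub_self, if_pos rfl]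
      have h2 : ∀ t, (f t + g t) * (f (0 - t) + g (0 - t)) = -(f t + g t) ^ 2 := by
        intro t
        rw [zero_sub, hf, hg]
        ring
      rw [Finset.sum_congr rfl fun t _ => h2 t, Finset.sum_neg_distrib,
        Finset.sum_congr rfl fun t _ => hm t, Finset.sum_sub_distrib]
      simp
    · have hd : z - x ≠ 0 := sub_ne_zero.2 (Ne.symm hxz)
      rw [if_neg hxz]
      have h2 : ∀ t, (f t + g t) * (f (z - x - t) + g (z - x - t)) =
          (f t * f (z - x - t) + g t * g (z - x - t)) + (f t * g (z - x - t) +
            g t * f (z - x - t)) := by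
        intro t
        ring
      rw [Finset.sum_congr rfl fun t _ => h2 t, Finset.sum_add_distrib, hfc _ hd,
        Finset.sum_add_distrib, hgc]
      have h3 : ∑ t, g t * f (z - x - t) = v * quadraticChar F (z - x) := by
        rw [← hgc]
        refine Fintype.sum_equiv (Equiv.subLeft (z - x)) _ _ ?_
        intro t
        simp only [Equiv.subLeft_apply]
        rw [sub_sub_cancel, mul_comm]
      rw [h3]
      ring
  · ext x z
    simp [Matrix.mul_apply, bf]
  · ext x z
    simp only [Matrix.mul_apply, of_apply, Matrix.add_apply, Matrix.smul_apply, smul_eq_mul,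
      Matrix.one_apply, bf]
    have h1 : ∀ y : F, (1 - 2 * (if x + y = 0 then 1 else 0 : ℤ)) *
        (1 - 2 * (if y + z = 0 then 1 else 0 : ℤ)) =
        1 - (if y = -x then 2 else 0) - (if y = -z then 2 else 0) +
          (if y = -x then (if x = z then 4 else 0) else 0) := by
      intro y
      have h2 : (x + y = 0) ↔ (y = -x) := by rw [add_comm, add_eq_zero_iff_eq_neg]
      have h3 : (y + z = 0) ↔ (y = -z) := by rw [add_eq_zero_iff_eq_neg]
      simp only [h2, h3]
      by_cases hy : y = -x
      · by_cases hxz : x = z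
        · have hy' : y = -z := by rw [hy, hxz]
          simp only [if_pos hy, if_pos hy', if_pos hxz]
          norm_num
        · have hy' : ¬ y = -z := by
            intro h
            exact hxz (neg_injective (hy.symm.trans h))
          simp only [if_pos hy, if_neg hy', if_neg hxz]
          norm_num
      · by_cases hy' : y = -z
        · simp only [if_neg hy, if_pos hy']
          norm_num
        · simp only [if_neg hy, if_neg hy']
          norm_num
    have h4 : ∑ y : F, (1 - 2 * (if x + y = 0 then 1 else 0 : ℤ)) *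
        (1 - 2 * (if y + z = 0 then 1 else 0 : ℤ)) =
        (Fintype.card F : ℤ) - 4 + (if x = z then 4 else 0) := by
      rw [Finset.sum_congr rfl fun y _ => h1 y, Finset.sum_add_distrib, Finset.sum_sub_distrib,
        Finset.sum_sub_distrib, Finset.sum_ite_eq', Finset.sum_ite_eq', Finset.sum_ite_eq']
      simp
      ring
    simp only [Matrix.cons_val_one, Matrix.cons_val_zero] at h4 ⊢
    rw [h4]
    split_ifs <;> ring
  · ext x z
    simp only [Matrix.mul_apply, of_apply, Matrix.add_apply, Matrix.sub_apply, Matrix.smul_apply,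
      smul_eq_mul, Matrix.one_apply]
    have h1 : ∀ t, bf F 2 t = quadraticChar F t + 1 * (if t = 0 then 1 else 0) := by
      intro t
      simp [bf]
    rw [Finset.sum_congr rfl fun y _ => by rw [h1, h1]]
    rw [sum_shift F (fun s t => (quadraticChar F s + 1 * (if s = 0 then 1 else 0)) *
      (quadraticChar F t + 1 * (if t = 0 then 1 else 0))) x z, sum_b F h5]
    have h2 : (z - x = 0) ↔ (x = z) := by rw [sub_eq_zero, eq_comm]
    simp only [h2]
    split_ifs with hxz
    · subst hxz
      simp
    · ring
  · ext x z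
    simp only [Matrix.mul_apply, of_apply, Matrix.sub_apply, Matrix.smul_apply,
      smul_eq_mul, Matrix.one_apply]
    have h1 : ∀ t, bf F 3 t = quadraticChar F t + (-1) * (if t = 0 then 1 else 0) := by
      intro t
      by_cases ht : t = 0
      · subst ht; simp [bf]
      · show quadraticChar F t - (if t = 0 then 1 else 0) =
          quadraticChar F t + (-1) * (if t = 0 then 1 else 0)
        rw [if_neg ht]
        ring
    rw [Finset.sum_congr rfl fun y _ => by rw [h1, h1]]
    rw [sum_shift F (fun s t => (quadraticChar F s + (-1) * (if s = 0 then 1 else 0)) *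
      (quadraticChar F t + (-1) * (if t = 0 then 1 else 0))) x z, sum_b F h5]
    have h2 : (z - x = 0) ↔ (x = z) := by rw [sub_eq_zero, eq_comm]
    simp only [h2]
    split_ifs with hxz
    · subst hxz
      simp
    · ring
  · intro x y
    simp only [of_apply, Matrix.one_apply]
    rw [hm]
    have h2 : (y - x = 0) ↔ (x = y) := by rw [sub_eq_zero, eq_comm]
    simp only [h2]
    split_ifs <;> ring
  · intro i x y
    simp only [of_apply]
    exact bf_sq F i _

end fld

theorem core5_exists (q : ℕ) (hq : IsPrimePow q) (h5 : q % 8 = 5) :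
    ∃ (κ : Type) (_ : Fintype κ) (_ : DecidableEq κ) (y : ℤ) (μ : Matrix κ κ ℤ)
      (B : Fin 4 → Matrix κ κ ℤ) (Q : Matrix κ κ ℤ),
      Fintype.card κ = q ∧ Odd y ∧ Core5 (q : ℤ) y μ B Q := by
  classical
  obtain ⟨p, f, hp, hf, rfl⟩ := hq
  have hp' : p.Prime := hp.nat_prime
  haveI : Fact p.Prime := ⟨hp'⟩
  haveI : Fintype (GaloisField p f) := Fintype.ofFinite _
  have hcard : Fintype.card (GaloisField p f) = p ^ f := by
    rw [← Nat.card_eq_fintype_card, GaloisField.card p f hf.ne']
  obtain ⟨y, μ, B, Q, hy, hc⟩ := core5_field (GaloisField p f) (by rw [hcard]; exact h5)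
  refine ⟨GaloisField p f, inferInstance, inferInstance, y, μ, B, Q, hcard, hy, ?_⟩
  rw [hcard] at hc
  exact hc

end Pool.Agent.Lib.MP_be2ccc_co.SH
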