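import Mathlib
import Pool.Agent.Lib.MP_be2ccc_co.SH.DCh
import Pool.Agent.Lib.MP_be2ccc_co.SH.Fin5
import Pool.Agent.Lib.MP_be2ccc_co.SH.Paley5
import Pool.Agent.Lib.MP_be2ccc_co.SH.Num5

/-!
# SH-Q5: assembly for `q ≡ 5 (mod 8)`: `core5_exists`, `num5`, `od_exists`, `fin5`
-/

set_option autoImplicit false

namespace Pool.Agent.Lib.MP_be2ccc_co.SH

theorem q5 (q : ℕ) (hq : IsPrimePow q) (h5 : q % 8 = 5) :
    ∃ T : ℕ, 2 ≤ T ∧ HasW (2 ^ T * q) (2 ^ T * q - 1) := by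
  obtain ⟨κ, hκ1, hκ2, y, μ, B, Q, hcard, hy, hC⟩ := core5_exists q hq h5
  obtain ⟨s, α, β, ε, hs, hnum⟩ := num5 q h5 y hy
  obtain ⟨ι, hι1, hι2, A, hcι, hA⟩ := od_exists s α β ε
  obtain ⟨h1, h2, h3⟩ := hnum _ rfl
  obtain ⟨S, hS1, hS2⟩ := fin5 hA hC h1 h2 h3
  refine ⟨s + 1, by omega, HasWI.hasW (ι := ι × κ) (by rw [Fintype.card_prod, hcι, hcard]) ?_⟩
  have hq1 : 1 ≤ q := by omega
  have hpos : 1 ≤ 2 ^ (s + 1) * q := Nat.mul_pos (by positivity) (by omega)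
  refine ⟨S, hS1, ?_⟩
  rw [hS2]
  congr 1
  push_cast [Nat.cast_sub hpos]
  ring

end Pool.Agent.Lib.MP_be2ccc_co.SH
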