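import Mathlib
import Pool.Agent.Lib.MP_be2ccc_co.SH.Q3
import Pool.Agent.Lib.MP_be2ccc_co.SH.Q5

/-!
# Skew Hadamard matrices of order `2^T q` for every odd prime power `q` with `q % 8 ≠ 1`
-/

set_option autoImplicit false

namespace Pool.Agent.Lib.MP_be2ccc_co.SH

theorem conf_prime_pow (q : ℕ) (hq : IsPrimePow q) (h2 : q % 2 = 1) (h8 : q % 8 ≠ 1) :
    ∃ T : ℕ, 2 ≤ T ∧ HasW (2 ^ T * q) (2 ^ T * q - 1) := by
  rcases (by omega : q % 4 = 3 ∨ q % 8 = 5) with h | h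
  · exact q3 q hq h
  · exact q5 q hq h

end Pool.Agent.Lib.MP_be2ccc_co.SH
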